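import Mathlib
import Pool.Agent.H710R2.DP.VTasks

/-!
Generating sequences of selfadjoint operators on orthogonal pieces by one selfadjoint operator.
-/

set_option autoImplicit false

open scoped ComplexOrder InnerProductSpace ComplexConjugate
open Finset

noncomputable section

namespace H360R2.GN

open H759R2.Kad H710R2.DP

variable {H : Type} [NormedAddCommGroup H] [InnerProductSpace ℂ H] [CompleteSpace H]

/-- An operator is in `M` if it commutes with everything that commutes with `M`. -/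
theorem mem_of_comm (M : VonNeumannAlgebra H) (a : H →L[ℂ] H)
    (h : ∀ y : H →L[ℂ] H, (∀ x ∈ M, y * x = x * y) → y * a = a * y) : a ∈ M := by
  have h1 : a ∈ Set.centralizer (Set.centralizer (M : Set (H →L[ℂ] H))) := by
    intro y hy
    apply h
    intro x hx
    exact (hy x hx).symm
  have h2 := M.centralizer_centralizer'
  have h3 : Set.centralizer (Set.centralizer (M : Set (H →L[ℂ] H))) = (M : Set (H →L[ℂ] H)) := h2
  rw [h3] at h1
  exact h1

theorem vn_smul (M : VonNeumannAlgebra H) (c : ℂ) {x : H →L[ℂ] H} (hx : x ∈ M) : c • x ∈ M :=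
  mem_of_comm M _ (fun y hy => by rw [mul_smul_comm, smul_mul_assoc, hy x hx])

theorem vn_rsmul (M : VonNeumannAlgebra H) (c : ℝ) {x : H →L[ℂ] H} (hx : x ∈ M) : c • x ∈ M :=
  mem_of_comm M _ (fun y hy => by rw [mul_smul_comm, smul_mul_assoc, hy x hx])

/-- gap lemma -/
theorem gap (A p q y : H →L[ℂ] H) (α β : ℝ) (hβ : 0 ≤ β) (hab : β < α)
    (hp : p * A = A * p) (hq : q * A = A * q) (hqq : q * q = q)
    (h1 : ∀ ξ, α * ‖p ξ‖ ≤ ‖A (p ξ)‖) (h2 : ‖A * q‖ ≤ β) (hy : y * A = A * y) :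
    p * y * q = 0 := by
  set w := p * y * q with hw
  have hAw : A * w = w * (A * q) := by
    calc A * w = (A * p) * y * q := by rw [hw]; simp only [mul_assoc]
      _ = p * (A * y) * q := by rw [← hp]; simp only [mul_assoc]
      _ = p * y * (A * q) := by rw [← hy]; simp only [mul_assoc]
      _ = p * y * (q * (A * q)) := by
          congr 1
          calc A * q = A * (q * q) := by rw [hqq]
            _ = (A * q) * q := by rw [mul_assoc]
            _ = (q * A) * q := by rw [hq]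
            _ = q * (A * q) := by rw [mul_assoc]
      _ = w * (A * q) := by rw [hw]; simp only [mul_assoc]
  have hb : ∀ ξ, α * ‖w ξ‖ ≤ ‖w‖ * β * ‖ξ‖ := by
    intro ξ
    have e1 : w ξ = p ((y * q) ξ) := by
      rw [hw]; simp only [ContinuousLinearMap.mul_apply]
    calc α * ‖w ξ‖ ≤ ‖A (w ξ)‖ := by rw [e1]; exact h1 _
      _ = ‖(A * w) ξ‖ := rfl
      _ = ‖w ((A * q) ξ)‖ := by rw [hAw]; rfl
      _ ≤ ‖w‖ * ‖(A * q) ξ‖ := w.le_opNorm _
      _ ≤ ‖w‖ * (β * ‖ξ‖) := by
          apply mul_le_mul_of_nonneg_left _ (norm_nonneg _)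
          exact ((A * q).le_opNorm ξ).trans (mul_le_mul_of_nonneg_right h2 (norm_nonneg _))
      _ = ‖w‖ * β * ‖ξ‖ := by ring
  have hα : 0 < α := lt_of_le_of_lt hβ hab
  have h3 : ‖w‖ ≤ ‖w‖ * β / α := by
    apply ContinuousLinearMap.opNorm_le_bound
    · positivity
    · intro ξ
      rw [div_mul_eq_mul_div, le_div_iff₀ hα]
      linarith [hb ξ]
  have h4 : ‖w‖ = 0 := by
    by_contra hne
    have hpos : 0 < ‖w‖ := lt_of_le_of_ne (norm_nonneg _) (Ne.symm hne)
    rw [le_div_iff₀ hα] at h3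
    nlinarith
  exact norm_eq_zero.mp h4

/-- orthogonal pieces with sum `z` -/
structure Part (z : H →L[ℂ] H) (E : ℕ → (H →L[ℂ] H)) : Prop where
  pr : ∀ n, IsPr (E n)
  orth : ∀ m n, m ≠ n → E m * E n = 0
  zE : ∀ n, z * E n = E n
  Ez : ∀ n, E n * z = E n
  comp : ∀ w : H →L[ℂ] H, (∀ n, w * E n = 0) → w * z = 0
  zsa : star z = z

/-- the diagonal operator -/
def dg (E K : ℕ → (H →L[ℂ] H)) : H →L[ℂ] H := ∑' n : ℕ, ((1 / 4 : ℝ) ^ n) • ((2 : ℝ) • E n + K n)

theorem pr_norm {p : H →L[ℂ] H} (h : IsPr p) : ‖p‖ ≤ 1 := by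
  have h1 : IsStarProjection p := ⟨h.2, h.1⟩
  exact h1.norm_le

theorem dg_summable {E K : ℕ → (H →L[ℂ] H)} (hE : ∀ n, IsPr (E n)) (hK : ∀ n, ‖K n‖ ≤ 1) :
    Summable (fun n : ℕ => ((1 / 4 : ℝ) ^ n) • ((2 : ℝ) • E n + K n)) := by
  apply Summable.of_norm_bounded (g := fun n : ℕ => (1 / 4 : ℝ) ^ n * 3)
  · exact (summable_geometric_of_lt_one (by norm_num) (by norm_num)).mul_right 3
  · intro n
    rw [norm_smul, Real.norm_of_nonneg (by positivity)]
    apply mul_le_mul_of_nonneg_left _ (by positivity)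
    calc ‖(2 : ℝ) • E n + K n‖ ≤ ‖(2 : ℝ) • E n‖ + ‖K n‖ := norm_add_le _ _
      _ ≤ 2 + 1 := by
          apply add_le_add _ (hK n)
          rw [norm_smul]
          have := pr_norm (hE n)
          norm_num
          linarith
      _ = 3 := by norm_num

theorem dg_comm {E K : ℕ → (H →L[ℂ] H)} (hE : ∀ n, IsPr (E n)) (hK : ∀ n, ‖K n‖ ≤ 1)
    (y : H →L[ℂ] H) (h1 : ∀ n, y * E n = E n * y) (h2 : ∀ n, y * K n = K n * y) :
    y * dg E K = dg E K * y := by
  unfold dg
  have hs := dg_summable hE hK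
  rw [← hs.tsum_mul_left, ← hs.tsum_mul_right]
  congr 1
  funext n
  rw [mul_smul_comm, smul_mul_assoc, mul_add, add_mul, mul_smul_comm, smul_mul_assoc, h1, h2]

theorem dg_star {E K : ℕ → (H →L[ℂ] H)} (hE : ∀ n, IsPr (E n)) (hK : ∀ n, ‖K n‖ ≤ 1)
    (hKs : ∀ n, star (K n) = K n) : star (dg E K) = dg E K := by
  unfold dg
  have hs := dg_summable hE hK
  rw [tsum_star]
  congr 1
  funext n
  rw [star_smul, star_add, star_smul, (hE n).1, hKs]
  simp

theorem dg_mul {z : H →L[ℂ] H} {E K : ℕ → (H →L[ℂ] H)} (P : Part z E) (hK : ∀ n, ‖K n‖ ≤ 1)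
    (hKE : ∀ n, E n * K n = K n) (n : ℕ) :
    E n * dg E K = ((1 / 4 : ℝ) ^ n) • ((2 : ℝ) • E n + K n) := by
  unfold dg
  have hs := dg_summable P.pr hK
  rw [← hs.tsum_mul_left]
  rw [tsum_eq_single n]
  · rw [mul_smul_comm, mul_add, mul_smul_comm, (P.pr n).2, hKE]
  · intro m hm
    have e1 : E n * E m = 0 := P.orth n m (Ne.symm hm)
    have e2 : E n * K m = 0 := by rw [← hKE m, ← mul_assoc, e1, zero_mul]
    rw [mul_smul_comm, mul_add, mul_smul_comm, e1, e2]
    simp

theorem dg_mul' {z : H →L[ℂ] H} {E K : ℕ → (H →L[ℂ] H)} (P : Part z E) (hK : ∀ n, ‖K n‖ ≤ 1)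
    (hKE : ∀ n, E n * K n = K n) (hKs : ∀ n, star (K n) = K n) (n : ℕ) :
    dg E K * E n = ((1 / 4 : ℝ) ^ n) • ((2 : ℝ) • E n + K n) := by
  have h := congrArg star (dg_mul P hK hKE n)
  rw [star_mul, dg_star P.pr hK hKs, (P.pr n).1, star_smul, star_add, star_smul, (P.pr n).1,
    hKs] at h
  simpa using h

theorem dg_z {z : H →L[ℂ] H} {E K : ℕ → (H →L[ℂ] H)} (P : Part z E) (hK : ∀ n, ‖K n‖ ≤ 1)
    (hKE : ∀ n, E n * K n = K n) : z * dg E K = dg E K := by
  unfold dg
  have hs := dg_summable P.pr hK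
  rw [← hs.tsum_mul_left]
  congr 1
  funext n
  rw [mul_smul_comm, mul_add, mul_smul_comm, P.zE]
  congr 2
  rw [← hKE n, ← mul_assoc, P.zE]

theorem dg_low {z : H →L[ℂ] H} {E K : ℕ → (H →L[ℂ] H)} (P : Part z E) (hK : ∀ n, ‖K n‖ ≤ 1)
    (hKE : ∀ n, E n * K n = K n) (hKs : ∀ n, star (K n) = K n) (n : ℕ) (ξ : H) :
    ((1 / 4 : ℝ) ^ n) * ‖E n ξ‖ ≤ ‖dg E K (E n ξ)‖ := by
  have h1 : dg E K (E n ξ) = (((1 / 4 : ℝ) ^ n) • ((2 : ℝ) • E n + K n)) ξ := by
    rw [← dg_mul' P hK hKE hKs n]; rfl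
  have h2 : (E n) (E n ξ) = E n ξ := by
    have := congrArg (fun T : H →L[ℂ] H => T ξ) (P.pr n).2
    exact this
  have hKE' : K n * E n = K n := by
    have := congrArg star (hKE n)
    rw [star_mul, (P.pr n).1, hKs] at this
    exact this
  have h3 : K n ξ = K n (E n ξ) := by
    have := congrArg (fun T : H →L[ℂ] H => T ξ) hKE'
    exact this.symm
  rw [h1]
  simp only [ContinuousLinearMap.smul_apply, ContinuousLinearMap.add_apply]
  rw [norm_smul, Real.norm_of_nonneg (by positivity)]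
  apply mul_le_mul_of_nonneg_left _ (by positivity)
  have h4 : ‖K n ξ‖ ≤ ‖E n ξ‖ := by
    rw [h3]
    calc ‖K n (E n ξ)‖ ≤ ‖K n‖ * ‖E n ξ‖ := (K n).le_opNorm _
      _ ≤ 1 * ‖E n ξ‖ := mul_le_mul_of_nonneg_right (hK n) (norm_nonneg _)
      _ = ‖E n ξ‖ := one_mul _
  have h5 : ‖(2 : ℝ) • E n ξ‖ = 2 * ‖E n ξ‖ := by
    rw [norm_smul]; norm_num
  have h6 : ‖(2 : ℝ) • E n ξ‖ - ‖K n ξ‖ ≤ ‖(2 : ℝ) • E n ξ + K n ξ‖ := by
    have := norm_sub_norm_le ((2 : ℝ) • E n ξ) (-(K n ξ))
    simpa [sub_neg_eq_add] using this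
  linarith

theorem dg_up {z : H →L[ℂ] H} {E K : ℕ → (H →L[ℂ] H)} (P : Part z E) (hK : ∀ n, ‖K n‖ ≤ 1)
    (hKE : ∀ n, E n * K n = K n) (hKs : ∀ n, star (K n) = K n) (n : ℕ) :
    ‖dg E K * E n‖ ≤ (1 / 4 : ℝ) ^ n * 3 := by
  rw [dg_mul' P hK hKE hKs n, norm_smul, Real.norm_of_nonneg (by positivity)]
  apply mul_le_mul_of_nonneg_left _ (by positivity)
  calc ‖(2 : ℝ) • E n + K n‖ ≤ ‖(2 : ℝ) • E n‖ + ‖K n‖ := norm_add_le _ _
    _ ≤ 2 + 1 := by
        apply add_le_add _ (hK n)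
        rw [norm_smul]
        have := pr_norm (P.pr n)
        norm_num
        linarith
    _ = 3 := by norm_num

/-- what commutes with the diagonal operator commutes with all pieces -/
theorem diag {z : H →L[ℂ] H} {E K : ℕ → (H →L[ℂ] H)} (P : Part z E) (hK : ∀ n, ‖K n‖ ≤ 1)
    (hKE : ∀ n, E n * K n = K n) (hKs : ∀ n, star (K n) = K n) (y : H →L[ℂ] H)
    (hy : y * dg E K = dg E K * y) (hz : y * z = z * y) (n : ℕ) :
    y * E n = E n * y ∧ y * K n = K n * y := by
  have hA : star (dg E K) = dg E K := dg_star P.pr hK hKs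
  have hEA : ∀ m, E m * dg E K = dg E K * E m := by
    intro m
    rw [dg_mul P hK hKE m, dg_mul' P hK hKE hKs m]
  -- off diagonal terms vanish
  have key : ∀ y : H →L[ℂ] H, y * dg E K = dg E K * y → ∀ i j, i < j → E i * y * E j = 0 := by
    intro y hy i j hij
    apply gap (dg E K) (E i) (E j) y ((1 / 4 : ℝ) ^ i) ((1 / 4 : ℝ) ^ j * 3) (by positivity) _
      (hEA i) (hEA j) (P.pr j).2 (fun ξ => dg_low P hK hKE hKs i ξ) (dg_up P hK hKE hKs j) hy
    have h1 : (1 / 4 : ℝ) ^ j ≤ (1 / 4 : ℝ) ^ (i + 1) :=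
      pow_le_pow_of_le_one (by norm_num) (by norm_num) hij
    have h2 : (1 / 4 : ℝ) ^ (i + 1) = (1 / 4 : ℝ) ^ i * (1 / 4) := pow_succ _ _
    have h3 : 0 < (1 / 4 : ℝ) ^ i := by positivity
    nlinarith
  have hys : star y * dg E K = dg E K * star y := by
    have := congrArg star hy
    rw [star_mul, star_mul, hA] at this
    exact this.symm
  have hzs : star y * z = z * star y := by
    have := congrArg star hz
    rw [star_mul, star_mul, P.zsa] at this
    exact this.symm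
  have key2 : ∀ y : H →L[ℂ] H, y * dg E K = dg E K * y → star y * dg E K = dg E K * star y →
      ∀ i j, i ≠ j → E i * y * E j = 0 := by
    intro y hy hys i j hij
    rcases lt_or_gt_of_ne hij with h | h
    · exact key y hy i j h
    · have := congrArg star (key (star y) hys j i h)
      rw [star_mul, star_mul, star_star, (P.pr i).1, (P.pr j).1, star_zero] at this
      rw [mul_assoc]; exact this
  have one : ∀ y : H →L[ℂ] H, y * dg E K = dg E K * y → star y * dg E K = dg E K * star y →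
      y * z = z * y → y * E n = E n * y * E n := by
    intro y hy hys hz
    set w := y * E n - E n * y * E n with hw
    have h1 : ∀ m, E m * w = 0 := by
      intro m
      by_cases hm : m = n
      · subst hm
        rw [hw, mul_sub]
        simp only [← mul_assoc, (P.pr m).2, sub_self]
      · rw [hw, mul_sub, ← mul_assoc, key2 y hy hys m n hm]
        simp only [← mul_assoc, P.orth m n hm, zero_mul, sub_self]
    have h2 : ∀ m, star w * E m = 0 := by
      intro m
      have := congrArg star (h1 m)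
      rw [star_mul, (P.pr m).1, star_zero] at this
      exact this
    have h3 := P.comp _ h2
    have h4 : z * w = 0 := by
      have := congrArg star h3
      rw [star_mul, star_star, P.zsa, star_zero] at this
      exact this
    have h5 : z * w = w := by
      rw [hw, mul_sub]
      congr 1
      · rw [← mul_assoc, ← hz, mul_assoc, P.zE]
      · simp only [← mul_assoc, P.zE]
    rw [h5] at h4
    exact sub_eq_zero.mp h4
  have e1 := one y hy hys hz
  have e2 := one (star y) hys (by rw [star_star]; exact hy) hzs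
  have e3 : E n * y = E n * y * E n := by
    have := congrArg star e2
    rw [star_mul, star_mul, star_mul, star_star, (P.pr n).1] at this
    rw [mul_assoc]; exact this
  have e4 : y * E n = E n * y := by rw [e1, ← e3]
  refine ⟨e4, ?_⟩
  have e5 : y * (dg E K * E n) = (dg E K * E n) * y := by
    rw [← mul_assoc, hy, mul_assoc, e4, mul_assoc]
  rw [dg_mul' P hK hKE hKs n, mul_smul_comm, smul_mul_assoc] at e5
  have hne : ((1 / 4 : ℝ) ^ n) ≠ 0 := by positivity
  have e6 := smul_right_injective (H →L[ℂ] H) hne e5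
  rw [mul_add, add_mul, mul_smul_comm, smul_mul_assoc, e4] at e6
  exact add_left_cancel e6

end H360R2.GN
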