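import Mathlib
import Pool.Agent.H360R2.GN.Diag

/-!
Von Neumann algebras on separable Hilbert spaces are countably generated.
-/

set_option autoImplicit false

open scoped ComplexOrder InnerProductSpace ComplexConjugate Topology
open Finset Filter

noncomputable section

namespace H360R2.GN

open H759R2.Kad H710R2.DP

variable {H : Type} [NormedAddCommGroup H] [InnerProductSpace ℂ H] [CompleteSpace H]

theorem tendsto_of_dense [TopologicalSpace.SeparableSpace H] (x : ℕ → (H →L[ℂ] H))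
    (a : H →L[ℂ] H) (hx : ∀ k, ‖x k‖ ≤ 1) (ha : ‖a‖ ≤ 1)
    (h : ∀ d, Tendsto (fun k => x k (TopologicalSpace.denseSeq H d)) atTop
      (𝓝 (a (TopologicalSpace.denseSeq H d)))) (ξ : H) :
    Tendsto (fun k => x k ξ) atTop (𝓝 (a ξ)) := by
  rw [Metric.tendsto_atTop]
  intro ε hε
  obtain ⟨d, hd⟩ : ∃ d, dist ξ (TopologicalSpace.denseSeq H d) < ε / 3 := by
    have := (TopologicalSpace.denseRange_denseSeq H).exists_dist_lt ξ (show 0 < ε / 3 by positivity)
    exact this
  obtain ⟨N, hN⟩ := (Metric.tendsto_atTop.mp (h d)) (ε / 3) (by positivity)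
  refine ⟨N, fun n hn => ?_⟩
  have h1 := hN n hn
  set η := TopologicalSpace.denseSeq H d
  have h2 : dist (x n ξ) (x n η) ≤ dist ξ η := by
    rw [dist_eq_norm, dist_eq_norm, ← map_sub]
    calc ‖x n (ξ - η)‖ ≤ ‖x n‖ * ‖ξ - η‖ := (x n).le_opNorm _
      _ ≤ 1 * ‖ξ - η‖ := mul_le_mul_of_nonneg_right (hx n) (norm_nonneg _)
      _ = ‖ξ - η‖ := one_mul _
  have h3 : dist (a η) (a ξ) ≤ dist ξ η := by
    rw [dist_comm (a η), dist_eq_norm, dist_eq_norm, ← map_sub]
    calc ‖a (ξ - η)‖ ≤ ‖a‖ * ‖ξ - η‖ := a.le_opNorm _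
      _ ≤ 1 * ‖ξ - η‖ := mul_le_mul_of_nonneg_right ha (norm_nonneg _)
      _ = ‖ξ - η‖ := one_mul _
  calc dist (x n ξ) (a ξ) ≤ dist (x n ξ) (x n η) + dist (x n η) (a η) + dist (a η) (a ξ) :=
        dist_triangle4 _ _ _ _
    _ < ε / 3 + ε / 3 + ε / 3 := by linarith
    _ = ε := by ring

/-- countably many selfadjoint contractions generate, for every set of contractions -/
theorem exists_seq_of_set [TopologicalSpace.SeparableSpace H] (B : Set (H →L[ℂ] H))
    (hB : ∀ x ∈ B, ‖x‖ ≤ 1) (hne : B.Nonempty) :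
    ∃ x : ℕ → (H →L[ℂ] H), (∀ k, x k ∈ B) ∧
      ∀ y : H →L[ℂ] H, (∀ k, y * x k = x k * y) → ∀ a ∈ B, y * a = a * y := by
  let f : B → (ℕ → H) := fun x d => (x : H →L[ℂ] H) (TopologicalSpace.denseSeq H d)
  let R : Set (ℕ → H) := Set.range f
  have hRne : Nonempty R := by
    obtain ⟨b, hb⟩ := hne
    exact ⟨⟨f ⟨b, hb⟩, ⟨b, hb⟩, rfl⟩⟩
  let r : ℕ → R := TopologicalSpace.denseSeq R
  have hr : DenseRange r := TopologicalSpace.denseRange_denseSeq R
  choose g hg using fun k => (r k).2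
  refine ⟨fun k => (g k : H →L[ℂ] H), fun k => (g k).2, ?_⟩
  intro y hy a ha
  have hfa : (⟨f ⟨a, ha⟩, ⟨a, ha⟩, rfl⟩ : R) ∈ closure (Set.range r) := hr _
  rw [mem_closure_iff_seq_limit] at hfa
  obtain ⟨s, hs, hlim⟩ := hfa
  choose κ hκ using hs
  have hlim2 : ∀ d, Tendsto (fun j => (g (κ j) : H →L[ℂ] H) (TopologicalSpace.denseSeq H d)) atTop
      (𝓝 (a (TopologicalSpace.denseSeq H d))) := by
    intro d
    have h1 : Tendsto (fun j => ((s j : R) : ℕ → H)) atTop (𝓝 (f ⟨a, ha⟩)) := by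
      exact (continuous_subtype_val.tendsto _).comp hlim
    have h2 := (tendsto_pi_nhds.mp h1) d
    have h3 : ∀ j, ((s j : R) : ℕ → H) d
        = (g (κ j) : H →L[ℂ] H) (TopologicalSpace.denseSeq H d) := by
      intro j
      rw [← hκ j, ← hg (κ j)]
    simp only [h3] at h2
    exact h2
  have hlim3 := tendsto_of_dense (fun j => (g (κ j) : H →L[ℂ] H)) a
    (fun j => hB _ (g (κ j)).2) (hB a ha) hlim2
  ext ξ
  have h4 : Tendsto (fun j => y ((g (κ j) : H →L[ℂ] H) ξ)) atTop (𝓝 (y (a ξ))) :=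
    (y.continuous.tendsto _).comp (hlim3 ξ)
  have h5 : Tendsto (fun j => (g (κ j) : H →L[ℂ] H) (y ξ)) atTop (𝓝 (a (y ξ))) := hlim3 (y ξ)
  have h6 : ∀ j, y ((g (κ j) : H →L[ℂ] H) ξ) = (g (κ j) : H →L[ℂ] H) (y ξ) := by
    intro j
    exact congrArg (fun T : H →L[ℂ] H => T ξ) (hy (κ j))
  simp only [h6] at h4
  exact tendsto_nhds_unique h4 h5

/-- a von Neumann algebra on a separable space is generated by a sequence of selfadjoint
contractions -/
theorem exists_gen_seq [TopologicalSpace.SeparableSpace H] (M : VonNeumannAlgebra H) :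
    ∃ x : ℕ → (H →L[ℂ] H), (∀ k, x k ∈ M ∧ star (x k) = x k ∧ ‖x k‖ ≤ 1) ∧
      ∀ y : H →L[ℂ] H, (∀ k, y * x k = x k * y) → ∀ a ∈ M, y * a = a * y := by
  obtain ⟨x, hx, h⟩ := exists_seq_of_set {x : H →L[ℂ] H | x ∈ M ∧ star x = x ∧ ‖x‖ ≤ 1}
    (fun x hx => hx.2.2) ⟨0, zero_mem M, star_zero _, by simp⟩
  refine ⟨x, hx, ?_⟩
  intro y hy a ha
  -- selfadjoint elements
  have hsa : ∀ b ∈ M, star b = b → y * b = b * y := by
    intro b hb hbs
    have hpos : (0 : ℝ) < ‖b‖ + 1 := by positivity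
    have h1 := h y hy (((‖b‖ + 1)⁻¹ : ℝ) • b) ⟨vn_rsmul M _ hb, by
        rw [star_smul, hbs]; simp, by
        rw [norm_smul, Real.norm_of_nonneg (by positivity), inv_mul_le_iff₀ hpos]
        linarith⟩
    rw [mul_smul_comm, smul_mul_assoc] at h1
    exact smul_right_injective (H →L[ℂ] H) (show ((‖b‖ + 1)⁻¹ : ℝ) ≠ 0 by positivity) h1
  have h1 := hsa (a + star a) (add_mem ha (star_mem ha)) (by rw [star_add, star_star, add_comm])
  have h2 := hsa (Complex.I • (a - star a)) (vn_smul M _ (sub_mem ha (star_mem ha)))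
    (by
      rw [star_smul, star_sub, star_star]
      simp only [RCLike.star_def, Complex.conj_I]
      rw [neg_smul, ← smul_neg, neg_sub])
  rw [mul_smul_comm, smul_mul_assoc] at h2
  have h3 := smul_right_injective (H →L[ℂ] H) Complex.I_ne_zero h2
  rw [mul_add, add_mul] at h1
  rw [mul_sub, sub_mul] at h3
  have h4 : (2 : ℂ) • (y * a) = (2 : ℂ) • (a * y) := by
    have : y * a + y * star a + (y * a - y * star a) = a * y + star a * y + (a * y - star a * y) := by
      rw [h1, h3]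
    calc (2 : ℂ) • (y * a) = y * a + y * star a + (y * a - y * star a) := by
            rw [two_smul]; abel
      _ = a * y + star a * y + (a * y - star a * y) := this
      _ = (2 : ℂ) • (a * y) := by rw [two_smul]; abel
  exact smul_right_injective (H →L[ℂ] H) (two_ne_zero) h4

end H360R2.GN
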