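import Mathlib
import Pool.Agent.H360R2.GN.Count

/-!
Generators of pieces with (infinite or finite) systems of matrix units.
-/

set_option autoImplicit false

open scoped ComplexOrder InnerProductSpace ComplexConjugate Topology
open Finset Filter

noncomputable section

namespace H360R2.GN

open H759R2.Kad H710R2.DP

variable {H : Type} [NormedAddCommGroup H] [InnerProductSpace ℂ H] [CompleteSpace H]

/-- `z M` is generated by two selfadjoint elements. -/
def Gen (M : VonNeumannAlgebra H) (z : H →L[ℂ] H) : Prop :=
  ∃ A B : H →L[ℂ] H, A ∈ M ∧ B ∈ M ∧ star A = A ∧ star B = B ∧ z * A = A ∧ z * B = B ∧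
    ∀ y : H →L[ℂ] H, y * A = A * y → y * B = B * y → y * z = z * y →
      ∀ x ∈ M, y * (z * x) = z * x * y

/-- `z` is the sum of infinitely many equivalent projections of `M` and one subequivalent one. -/
def PieceC (M : VonNeumannAlgebra H) (z : H →L[ℂ] H) : Prop :=
  ∃ v : ℕ → (H →L[ℂ] H), (∀ n, v n ∈ M) ∧ (∀ n, IsPI (v n)) ∧
    (∀ n, star (v (n + 1)) * v (n + 1) = star (v 1) * v 1) ∧
    v 0 * (star (v 1) * v 1) = v 0 ∧
    (∀ m n, m ≠ n → star (v m) * v n = 0) ∧ (∀ n, z * v n = v n) ∧
    ∀ y : H →L[ℂ] H, (∀ n, y * v n = 0) → y * z = 0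

theorem pi_norm {v : H →L[ℂ] H} (h : IsPI v) : ‖v‖ ≤ 1 := by
  have h1 : IsPr (star v * v) := by
    refine ⟨by rw [star_mul, star_star], ?_⟩
    calc star v * v * (star v * v) = star v * (v * star v * v) := by simp only [mul_assoc]
      _ = star v * v := by rw [h]
  have h2 := pr_norm h1
  rw [CStarRing.norm_star_mul_self] at h2
  nlinarith [norm_nonneg v]

theorem star_norm {v : H →L[ℂ] H} (h : IsPI v) : ‖star v‖ ≤ 1 := by
  rw [norm_star]; exact pi_norm h

/-- decomposition into selfadjoint contractions -/
theorem comm_of_sa {y : H →L[ℂ] H} (S : Set (H →L[ℂ] H)) (hadd : ∀ a ∈ S, ∀ b ∈ S, a + b ∈ S)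
    (hstar : ∀ a ∈ S, star a ∈ S) (hsmul : ∀ (c : ℂ), ∀ a ∈ S, c • a ∈ S)
    (h : ∀ b ∈ S, star b = b → ‖b‖ ≤ 1 → y * b = b * y) : ∀ a ∈ S, y * a = a * y := by
  have hsa : ∀ b ∈ S, star b = b → y * b = b * y := by
    intro b hb hbs
    have hpos : (0 : ℝ) < ‖b‖ + 1 := by positivity
    have h1 := h ((((‖b‖ + 1)⁻¹ : ℝ) : ℂ) • b) (hsmul _ _ hb) (by
        rw [star_smul, hbs]; simp) (by
        rw [norm_smul, Complex.norm_real, Real.norm_of_nonneg (by positivity),
          inv_mul_le_iff₀ hpos]
        linarith)
    rw [mul_smul_comm, smul_mul_assoc] at h1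
    refine smul_right_injective (H →L[ℂ] H) (show (((‖b‖ + 1)⁻¹ : ℝ) : ℂ) ≠ 0 from ?_) h1
    exact_mod_cast (by positivity : ((‖b‖ + 1)⁻¹ : ℝ) ≠ 0)
  intro a ha
  have h1 := hsa (a + star a) (hadd _ ha _ (hstar _ ha)) (by rw [star_add, star_star, add_comm])
  have h2 := hsa (Complex.I • (a + (-1 : ℂ) • star a))
    (hsmul _ _ (hadd _ ha _ (hsmul _ _ (hstar _ ha))))
    (by
      rw [star_smul, star_add, star_smul, star_star]
      simp only [RCLike.star_def, Complex.conj_I, map_neg, map_one, neg_smul, one_smul]
      rw [← smul_neg, neg_add, neg_neg, add_comm])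
  rw [mul_smul_comm, smul_mul_assoc] at h2
  have h3 := smul_right_injective (H →L[ℂ] H) Complex.I_ne_zero h2
  simp only [neg_smul, one_smul, ← sub_eq_add_neg] at h3
  rw [mul_add, add_mul] at h1
  rw [mul_sub, sub_mul] at h3
  have h4 : (2 : ℂ) • (y * a) = (2 : ℂ) • (a * y) := by
    have : y * a + y * star a + (y * a - y * star a) = a * y + star a * y + (a * y - star a * y) := by
      rw [h1, h3]
    calc (2 : ℂ) • (y * a) = y * a + y * star a + (y * a - y * star a) := by
            rw [two_smul]; abel
      _ = a * y + star a * y + (a * y - star a * y) := this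
      _ = (2 : ℂ) • (a * y) := by rw [two_smul]; abel
  exact smul_right_injective (H →L[ℂ] H) (two_ne_zero) h4

/-- the core computation with matrix units -/
theorem core (M : VonNeumannAlgebra H) (z : H →L[ℂ] H) (hz : IsCP M z)
    (v : ℕ → (H →L[ℂ] H)) (hvM : ∀ n, v n ∈ M) (p : ℕ)
    (hPart : Part z (fun n => v n * star (v n)))
    (hbase : ∀ n, v n * (star (v p) * v p) = v n) (y : H →L[ℂ] H) (hyz : y * z = z * y)
    (h1 : ∀ m n, y * (v m * star (v n)) = (v m * star (v n)) * y)
    (h2 : ∀ b ∈ M, star (v p) * v p * b * (star (v p) * v p) = b →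
      y * (v p * b * star (v p)) = v p * b * star (v p) * y) :
    ∀ a ∈ M, y * (z * a) = z * a * y := by
  intro a ha
  have hbase' : ∀ n, (star (v p) * v p) * star (v n) = star (v n) := by
    intro n
    have := congrArg star (hbase n)
    rw [star_mul, star_mul, star_star] at this
    exact this
  -- corners
  have hc : ∀ m n, y * (v m * star (v m) * a * (v n * star (v n)))
      = (v m * star (v m) * a * (v n * star (v n))) * y := by
    intro m n
    set b := star (v m) * a * v n with hb
    have hbM : b ∈ M := mul_mem (mul_mem (star_mem (hvM m)) ha) (hvM n)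
    have hbe : star (v p) * v p * b * (star (v p) * v p) = b := by
      rw [hb]
      calc star (v p) * v p * (star (v m) * a * v n) * (star (v p) * v p)
          = (star (v p) * v p * star (v m)) * a * (v n * (star (v p) * v p)) := by
            simp only [mul_assoc]
        _ = star (v m) * a * v n := by rw [hbase', hbase]
    have e1 : v m * star (v m) * a * (v n * star (v n))
        = (v m * star (v p)) * (v p * b * star (v p)) * (v p * star (v n)) := by
      calc v m * star (v m) * a * (v n * star (v n)) = v m * b * star (v n) := by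
            rw [hb]; simp only [mul_assoc]
        _ = v m * (star (v p) * v p * b * (star (v p) * v p)) * star (v n) := by rw [hbe]
        _ = (v m * star (v p)) * (v p * b * star (v p)) * (v p * star (v n)) := by
            simp only [mul_assoc]
    rw [e1]
    have g1 := h1 m p
    have g2 := h2 b hbM hbe
    have g3 := h1 p n
    calc y * (v m * star (v p) * (v p * b * star (v p)) * (v p * star (v n)))
        = (y * (v m * star (v p))) * (v p * b * star (v p)) * (v p * star (v n)) := by
          simp only [mul_assoc]
      _ = (v m * star (v p)) * (y * (v p * b * star (v p))) * (v p * star (v n)) := by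
          rw [g1]; simp only [mul_assoc]
      _ = (v m * star (v p)) * (v p * b * star (v p)) * (y * (v p * star (v n))) := by
          rw [g2]; simp only [mul_assoc]
      _ = v m * star (v p) * (v p * b * star (v p)) * (v p * star (v n)) * y := by
          rw [g3]; simp only [mul_assoc]
  have hE : ∀ m, y * (v m * star (v m)) = (v m * star (v m)) * y := fun m => h1 m m
  set c := y * a - a * y with hcdef
  have hcc : ∀ m n, (v m * star (v m)) * c * (v n * star (v n)) = 0 := by
    intro m n
    rw [hcdef, mul_sub, sub_mul]
    have e1 : v m * star (v m) * (y * a) * (v n * star (v n))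
        = y * (v m * star (v m) * a * (v n * star (v n))) := by
      calc v m * star (v m) * (y * a) * (v n * star (v n))
          = (v m * star (v m) * y) * a * (v n * star (v n)) := by simp only [mul_assoc]
        _ = (y * (v m * star (v m))) * a * (v n * star (v n)) := by rw [hE m]
        _ = _ := by simp only [mul_assoc]
    have e2 : v m * star (v m) * (a * y) * (v n * star (v n))
        = (v m * star (v m) * a * (v n * star (v n))) * y := by
      calc v m * star (v m) * (a * y) * (v n * star (v n))
          = v m * star (v m) * a * (y * (v n * star (v n))) := by simp only [mul_assoc]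
        _ = v m * star (v m) * a * ((v n * star (v n)) * y) := by rw [hE n]
        _ = _ := by simp only [mul_assoc]
    rw [e1, e2, hc m n, sub_self]
  have hd : ∀ m, (v m * star (v m)) * c * z = 0 := fun m => hPart.comp _ (fun n => hcc m n)
  have hd2 : ∀ m, (z * star c) * (v m * star (v m)) = 0 := by
    intro m
    have := congrArg star (hd m)
    rw [star_mul, star_mul, hPart.zsa, (hPart.pr m).1, star_zero] at this
    rw [mul_assoc]; exact this
  have hd3 : z * star c * z = 0 := hPart.comp _ hd2
  have hd4 : z * c * z = 0 := by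
    have := congrArg star hd3
    rw [star_mul, star_mul, star_star, hPart.zsa, star_zero] at this
    rw [mul_assoc]; exact this
  have hza : z * a = a * z := hz.2.2 a ha
  have hzz : z * z = z := hz.1.2
  have e3 : z * c * z = y * (z * a) - z * a * y := by
    rw [hcdef, mul_sub, sub_mul]
    congr 1
    · calc z * (y * a) * z = (z * y) * (a * z) := by simp only [mul_assoc]
        _ = (y * z) * (z * a) := by rw [← hyz, ← hza]
        _ = y * (z * z) * a := by simp only [mul_assoc]
        _ = y * (z * a) := by rw [hzz, mul_assoc]
    · calc z * (a * y) * z = (z * a) * (y * z) := by simp only [mul_assoc]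
        _ = (a * z) * (z * y) := by rw [hyz, hza]
        _ = a * (z * z) * y := by simp only [mul_assoc]
        _ = z * a * y := by rw [hzz, hza]
  rw [e3] at hd4
  exact sub_eq_zero.mp hd4

end H360R2.GN
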