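import Mathlib
import Pool.Agent.H360R2.GN.Core
import Pool.Agent.H710R2.DP.Tasks

/-!
The centre of a von Neumann algebra on a separable space has one selfadjoint generator.
-/

set_option autoImplicit false

open scoped ComplexOrder InnerProductSpace ComplexConjugate Topology
open Finset Filter

noncomputable section

namespace H360R2.GN

open H759R2.Kad H710R2.DP

variable {H : Type} [NormedAddCommGroup H] [InnerProductSpace ℂ H] [CompleteSpace H]

/-- weighted sum of the projections from index `k` on -/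
def tl (p : ℕ → (H →L[ℂ] H)) (k : ℕ) : H →L[ℂ] H := ∑' j : ℕ, ((1 / 4 : ℝ) ^ j) • p (k + j)

theorem tl_summable {p : ℕ → (H →L[ℂ] H)} (hp : ∀ k, ‖p k‖ ≤ 1) (k : ℕ) :
    Summable (fun j : ℕ => ((1 / 4 : ℝ) ^ j) • p (k + j)) := by
  apply Summable.of_norm_bounded (g := fun n : ℕ => (1 / 4 : ℝ) ^ n)
  · exact summable_geometric_of_lt_one (by norm_num) (by norm_num)
  · intro n
    rw [norm_smul, Real.norm_of_nonneg (by positivity)]
    calc (1 / 4 : ℝ) ^ n * ‖p (k + n)‖ ≤ (1 / 4 : ℝ) ^ n * 1 :=
          mul_le_mul_of_nonneg_left (hp _) (by positivity)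
      _ = (1 / 4 : ℝ) ^ n := mul_one _

theorem tl_norm {p : ℕ → (H →L[ℂ] H)} (hp : ∀ k, ‖p k‖ ≤ 1) (k : ℕ) : ‖tl p k‖ ≤ 4 / 3 := by
  unfold tl
  have h1 : HasSum (fun n : ℕ => (1 / 4 : ℝ) ^ n) (4 / 3) := by
    have := hasSum_geometric_of_lt_one (r := (1 / 4 : ℝ)) (by norm_num) (by norm_num)
    convert this using 1
    norm_num
  apply tsum_of_norm_bounded h1
  intro n
  rw [norm_smul, Real.norm_of_nonneg (by positivity)]
  calc (1 / 4 : ℝ) ^ n * ‖p (k + n)‖ ≤ (1 / 4 : ℝ) ^ n * 1 :=
        mul_le_mul_of_nonneg_left (hp _) (by positivity)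
    _ = (1 / 4 : ℝ) ^ n := mul_one _

theorem tl_succ {p : ℕ → (H →L[ℂ] H)} (hp : ∀ k, ‖p k‖ ≤ 1) (k : ℕ) :
    tl p k = p k + (1 / 4 : ℝ) • tl p (k + 1) := by
  unfold tl
  rw [(tl_summable hp k).tsum_eq_zero_add]
  congr 1
  · simp
  · rw [← tsum_const_smul'']
    congr 1
    funext j
    rw [smul_smul, pow_succ, mul_comm (1 / 4 : ℝ)]
    congr 2
    omega

theorem tl_comm {p : ℕ → (H →L[ℂ] H)} (hp : ∀ k, ‖p k‖ ≤ 1) (y : H →L[ℂ] H)
    (h : ∀ k, y * p k = p k * y) (k : ℕ) : y * tl p k = tl p k * y := by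
  unfold tl
  have hs := tl_summable hp k
  rw [← hs.tsum_mul_left, ← hs.tsum_mul_right]
  congr 1
  funext n
  rw [mul_smul_comm, smul_mul_assoc, h]

theorem tl_star {p : ℕ → (H →L[ℂ] H)} (h : ∀ k, star (p k) = p k) (k : ℕ) :
    star (tl p k) = tl p k := by
  unfold tl
  rw [tsum_star]
  congr 1
  funext n
  rw [star_smul, h]
  simp

/-- what commutes with the weighted sum of commuting projections commutes with all of them -/
theorem tl_gen {p : ℕ → (H →L[ℂ] H)} (hp : ∀ k, IsPr (p k)) (hc : ∀ j k, p j * p k = p k * p j)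
    (y : H →L[ℂ] H) (hy : y * tl p 0 = tl p 0 * y) : ∀ k, y * p k = p k * y := by
  have hn : ∀ k, ‖p k‖ ≤ 1 := fun k => pr_norm (hp k)
  have hcr : ∀ j k, p j * tl p k = tl p k * p j := fun j k => tl_comm hn (p j) (fun i => hc j i) k
  have step : ∀ y : H →L[ℂ] H, ∀ k, y * tl p k = tl p k * y → (1 - p k) * y * p k = 0 := by
    intro y k hy
    -- use the gap lemma for the adjoint situation
    have hq : (1 - p k) * (1 - p k) = 1 - p k := by
      rw [mul_sub, sub_mul, sub_mul]; simp [(hp k).2]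
    have hstar : star y * tl p k = tl p k * star y := by
      have := congrArg star hy
      rw [star_mul, star_mul, tl_star (fun k => (hp k).1)] at this
      exact this.symm
    have h := gap (tl p k) (p k) (1 - p k) (star y) (2 / 3) (1 / 3) (by norm_num) (by norm_num)
      (hcr k k) (by rw [sub_mul, mul_sub, hcr k k]; simp) hq ?_ ?_ hstar
    · have := congrArg star h
      rw [star_mul, star_mul, star_star, (hp k).1, star_sub, star_one, (hp k).1, star_zero] at this
      rw [mul_assoc]; exact this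
    · intro ξ
      have e1 : tl p k (p k ξ) = p k ξ + (1 / 4 : ℝ) • (tl p (k + 1)) (p k ξ) := by
        rw [tl_succ hn k]
        simp only [ContinuousLinearMap.add_apply, ContinuousLinearMap.smul_apply]
        congr 1
        have := congrArg (fun T : H →L[ℂ] H => T ξ) (hp k).2
        exact this
      have e2 : ‖(1 / 4 : ℝ) • (tl p (k + 1)) (p k ξ)‖ ≤ 1 / 3 * ‖p k ξ‖ := by
        rw [norm_smul]
        have := (tl p (k + 1)).le_opNorm (p k ξ)
        have h2 := tl_norm hn (k + 1)
        have h3 : ‖tl p (k + 1) (p k ξ)‖ ≤ 4 / 3 * ‖p k ξ‖ :=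
          this.trans (mul_le_mul_of_nonneg_right h2 (norm_nonneg _))
        rw [Real.norm_of_nonneg (by norm_num)]
        linarith
      rw [e1]
      have e3 : ‖p k ξ‖ - ‖(1 / 4 : ℝ) • (tl p (k + 1)) (p k ξ)‖
          ≤ ‖p k ξ + (1 / 4 : ℝ) • (tl p (k + 1)) (p k ξ)‖ := by
        have := norm_sub_norm_le (p k ξ) (-((1 / 4 : ℝ) • (tl p (k + 1)) (p k ξ)))
        simpa [sub_neg_eq_add] using this
      linarith
    · have e1 : tl p k * (1 - p k) = (1 / 4 : ℝ) • (tl p (k + 1) * (1 - p k)) := by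
        rw [tl_succ hn k, add_mul, smul_mul_assoc]
        have : p k * (1 - p k) = 0 := by rw [mul_sub, (hp k).2]; simp
        rw [this, zero_add]
      rw [e1, norm_smul, Real.norm_of_nonneg (by norm_num)]
      have h1 : ‖1 - p k‖ ≤ 1 := by
        apply pr_norm
        exact ⟨by rw [star_sub, star_one, (hp k).1], hq⟩
      have h2 := tl_norm hn (k + 1)
      calc 1 / 4 * ‖tl p (k + 1) * (1 - p k)‖ ≤ 1 / 4 * (‖tl p (k + 1)‖ * ‖1 - p k‖) :=
            mul_le_mul_of_nonneg_left (norm_mul_le _ _) (by norm_num)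
        _ ≤ 1 / 4 * (4 / 3 * 1) := by
            apply mul_le_mul_of_nonneg_left _ (by norm_num)
            exact mul_le_mul h2 h1 (norm_nonneg _) (by norm_num)
        _ = 1 / 3 := by norm_num
  have main : ∀ k, y * tl p k = tl p k * y ∧ y * p k = p k * y := by
    have one : ∀ k, y * tl p k = tl p k * y → y * p k = p k * y := by
      intro k hk
      have hstar : star y * tl p k = tl p k * star y := by
        have := congrArg star hk
        rw [star_mul, star_mul, tl_star (fun k => (hp k).1)] at this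
        exact this.symm
      have a1 := step y k hk
      have a2 := step (star y) k hstar
      have a3 : y * p k = p k * y * p k := by
        rw [sub_mul, sub_mul, one_mul, sub_eq_zero] at a1
        exact a1
      have a4 : star y * p k = p k * star y * p k := by
        rw [sub_mul, sub_mul, one_mul, sub_eq_zero] at a2
        exact a2
      have a5 : p k * y = p k * y * p k := by
        have := congrArg star a4
        rw [star_mul, star_mul, star_mul, star_star, (hp k).1] at this
        rw [mul_assoc]; exact this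
      rw [a3, ← a5]
    intro k
    induction k with
    | zero => exact ⟨hy, one 0 hy⟩
    | succ k ih =>
      have h1 := ih.1
      have h2 : y * p k = p k * y := ih.2
      rw [tl_succ hn k, mul_add, add_mul, h2, mul_smul_comm, smul_mul_assoc] at h1
      have h3 := add_left_cancel h1
      have h4 : y * tl p (k + 1) = tl p (k + 1) * y :=
        smul_right_injective (H →L[ℂ] H) (show (1 / 4 : ℝ) ≠ 0 by norm_num) h3
      exact ⟨h4, one (k + 1) h4⟩
  exact fun k => (main k).2

/-- the centre has one selfadjoint generator -/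
theorem central_gen [TopologicalSpace.SeparableSpace H] (hspan : Z_span)
    (M : VonNeumannAlgebra H) :
    ∃ a : H →L[ℂ] H, IsCen M a ∧ star a = a ∧ ‖a‖ ≤ 4 / 3 ∧
      ∀ y : H →L[ℂ] H, y * a = a * y → ∀ c, IsCen M c → y * c = c * y := by
  obtain ⟨p, hp, hgen⟩ := exists_seq_of_set {p : H →L[ℂ] H | IsCP M p}
    (fun x hx => pr_norm hx.1)
    ⟨0, ⟨⟨star_zero _, by simp⟩, zero_mem M, by intro a _; simp⟩⟩
  have hn : ∀ k, ‖p k‖ ≤ 1 := fun k => pr_norm (hp k).1
  have hcomm : ∀ x ∈ M, x * tl p 0 = tl p 0 * x := by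
    intro x hx
    exact tl_comm hn x (fun k => ((hp k).2.2 x hx).symm) 0
  refine ⟨tl p 0, ⟨?_, fun x hx => (hcomm x hx).symm⟩, tl_star (fun k => (hp k).1.1) 0,
    tl_norm hn 0, ?_⟩
  · apply mem_of_comm
    intro y hy
    exact tl_comm hn y (fun k => hy _ (hp k).2.1) 0
  · intro y hy c hc
    have h1 := tl_gen (fun k => (hp k).1) (fun j k => (hp j).2.2 _ (hp k).2.1) y hy
    have h2 := hgen y h1
    -- pass to the norm closure of the span
    have h3 : ‖y * c - c * y‖ ≤ 0 := by
      apply le_of_forall_pos_le_add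
      intro ε hε
      obtain ⟨n, d, q, hq, hnear⟩ := hspan H M c hc (ε / (2 * ‖y‖ + 1)) (by positivity)
      set s := ∑ k, d k • q k with hs
      have hys : y * s = s * y := by
        rw [hs, Finset.mul_sum, Finset.sum_mul]
        apply Finset.sum_congr rfl
        intro k _
        rw [mul_smul_comm, smul_mul_assoc, h2 (q k) (hq k)]
      have e1 : y * c - c * y = y * (c - s) - (c - s) * y := by
        rw [mul_sub, sub_mul, hys]; abel
      rw [e1]
      calc ‖y * (c - s) - (c - s) * y‖ ≤ ‖y * (c - s)‖ + ‖(c - s) * y‖ := norm_sub_le _ _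
        _ ≤ ‖y‖ * ‖c - s‖ + ‖c - s‖ * ‖y‖ := add_le_add (norm_mul_le _ _) (norm_mul_le _ _)
        _ = (2 * ‖y‖) * ‖c - s‖ := by ring
        _ ≤ (2 * ‖y‖ + 1) * ‖c - s‖ :=
            mul_le_mul_of_nonneg_right (by linarith) (norm_nonneg _)
        _ ≤ (2 * ‖y‖ + 1) * (ε / (2 * ‖y‖ + 1)) :=
            mul_le_mul_of_nonneg_left hnear (by positivity)
        _ = 0 + ε := by
            have : (2 * ‖y‖ + 1) ≠ 0 := by positivity
            field_simp
            ring
    exact sub_eq_zero.mp (norm_le_zero_iff.mp h3)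

end H360R2.GN
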