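import Mathlib
import Pool.Agent.H360R2.GN.Core

/-!
The restriction of a von Neumann algebra to the range of a central projection.
-/

set_option autoImplicit false

open scoped ComplexOrder InnerProductSpace ComplexConjugate Topology
open Finset Filter

noncomputable section

namespace H360R2.GN

open H759R2.Kad H710R2.DP

variable {H : Type} [NormedAddCommGroup H] [InnerProductSpace ℂ H] [CompleteSpace H]

/-- the range of a projection is a Hilbert space -/
theorem exists_range (z : H →L[ℂ] H) (hz : IsPr z) :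
    ∃ (K : Type) (_ : NormedAddCommGroup K) (_ : InnerProductSpace ℂ K) (_ : CompleteSpace K)
      (io : K →L[ℂ] H), (TopologicalSpace.SeparableSpace H → TopologicalSpace.SeparableSpace K) ∧
      ContinuousLinearMap.adjoint io ∘L io = 1 ∧ io ∘L ContinuousLinearMap.adjoint io = z := by
  let R : Submodule ℂ H := (1 - z : H →L[ℂ] H).ker
  have mem_R : ∀ ξ : H, ξ ∈ R ↔ z ξ = ξ := by
    intro ξ
    show ξ ∈ (1 - z : H →L[ℂ] H).ker ↔ _
    rw [LinearMap.mem_ker]
    show ((1 : H →L[ℂ] H) - z) ξ = 0 ↔ z ξ = ξ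
    rw [ContinuousLinearMap.sub_apply, sub_eq_zero]
    exact eq_comm
  have hcl : IsClosed (R : Set H) := (1 - z : H →L[ℂ] H).isClosed_ker
  haveI : CompleteSpace R := hcl.completeSpace_coe
  refine ⟨R, inferInstance, inferInstance, inferInstance, R.subtypeL, ?_, ?_, ?_⟩
  · intro hs
    haveI : SecondCountableTopology H := UniformSpace.secondCountable_of_separable H
    infer_instance
  · ext1 ξ
    apply ext_inner_left ℂ
    intro η
    show ⟪η, ContinuousLinearMap.adjoint R.subtypeL (R.subtypeL ξ)⟫_ℂ = ⟪η, ξ⟫_ℂ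
    rw [ContinuousLinearMap.adjoint_inner_right]
    rfl
  · ext ξ
    have hzz : z (z ξ) = z ξ := congrArg (fun T : H →L[ℂ] H => T ξ) hz.2
    have hzm : z ξ ∈ R := (mem_R _).mpr hzz
    have h1 : ContinuousLinearMap.adjoint R.subtypeL ξ = ⟨z ξ, hzm⟩ := by
      apply ext_inner_left ℂ
      intro η
      rw [ContinuousLinearMap.adjoint_inner_right]
      show ⟪(η : H), ξ⟫_ℂ = ⟪(η : H), z ξ⟫_ℂ
      have e2 : (η : H) = z (η : H) := ((mem_R _).mp η.2).symm
      have e3 : ⟪(η : H), z ξ⟫_ℂ = ⟪z (η : H), ξ⟫_ℂ := by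
        have := ContinuousLinearMap.adjoint_inner_right z (η : H) ξ
        rw [← ContinuousLinearMap.star_eq_adjoint, hz.1] at this
        exact this
      rw [e3, ← e2]
    show R.subtypeL (ContinuousLinearMap.adjoint R.subtypeL ξ) = z ξ
    rw [h1]
    rfl

variable {K : Type} [NormedAddCommGroup K] [InnerProductSpace ℂ K] [CompleteSpace K]

/-- `io` is an isometry of `K` onto the range of `z` -/
structure Emb (io : K →L[ℂ] H) (z : H →L[ℂ] H) : Prop where
  a : ContinuousLinearMap.adjoint io ∘L io = 1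
  b : io ∘L ContinuousLinearMap.adjoint io = z
  c : IsPr z

/-- extension by zero -/
def ex (io : K →L[ℂ] H) (t : K →L[ℂ] K) : H →L[ℂ] H := io ∘L t ∘L ContinuousLinearMap.adjoint io

/-- compression -/
def cp (io : K →L[ℂ] H) (x : H →L[ℂ] H) : K →L[ℂ] K := ContinuousLinearMap.adjoint io ∘L x ∘L io

theorem Emb.ai {io : K →L[ℂ] H} {z : H →L[ℂ] H} (h : Emb io z) (ξ : K) :
    ContinuousLinearMap.adjoint io (io ξ) = ξ :=
  congrArg (fun T : K →L[ℂ] K => T ξ) h.a

theorem Emb.ia {io : K →L[ℂ] H} {z : H →L[ℂ] H} (h : Emb io z) (ξ : H) :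
    io (ContinuousLinearMap.adjoint io ξ) = z ξ :=
  congrArg (fun T : H →L[ℂ] H => T ξ) h.b

theorem ex_mul {io : K →L[ℂ] H} {z : H →L[ℂ] H} (h : Emb io z) (s t : K →L[ℂ] K) :
    ex io (s * t) = ex io s * ex io t := by
  ext ξ
  show io (s (t (ContinuousLinearMap.adjoint io ξ)))
    = io (s (ContinuousLinearMap.adjoint io (io (t (ContinuousLinearMap.adjoint io ξ)))))
  rw [h.ai]

theorem ex_star (io : K →L[ℂ] H) (t : K →L[ℂ] K) : ex io (star t) = star (ex io t) := by
  unfold ex
  rw [ContinuousLinearMap.star_eq_adjoint, ContinuousLinearMap.star_eq_adjoint,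
    ContinuousLinearMap.adjoint_comp, ContinuousLinearMap.adjoint_comp,
    ContinuousLinearMap.adjoint_adjoint]
  rfl

theorem ex_add (io : K →L[ℂ] H) (s t : K →L[ℂ] K) : ex io (s + t) = ex io s + ex io t := by
  ext ξ
  simp [ex]

theorem ex_sub (io : K →L[ℂ] H) (s t : K →L[ℂ] K) : ex io (s - t) = ex io s - ex io t := by
  ext ξ
  simp [ex]

theorem ex_smul (io : K →L[ℂ] H) (c : ℂ) (t : K →L[ℂ] K) : ex io (c • t) = c • ex io t := by
  ext ξ
  simp [ex]

theorem ex_zero (io : K →L[ℂ] H) : ex io 0 = 0 := by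
  ext ξ
  simp [ex]

theorem ex_one {io : K →L[ℂ] H} {z : H →L[ℂ] H} (h : Emb io z) : ex io 1 = z := by
  ext ξ
  exact h.ia ξ

theorem cp_ex {io : K →L[ℂ] H} {z : H →L[ℂ] H} (h : Emb io z) (t : K →L[ℂ] K) :
    cp io (ex io t) = t := by
  ext1 ξ
  show ContinuousLinearMap.adjoint io (io (t (ContinuousLinearMap.adjoint io (io ξ)))) = t ξ
  rw [h.ai, h.ai]

theorem ex_cp {io : K →L[ℂ] H} {z : H →L[ℂ] H} (h : Emb io z) (x : H →L[ℂ] H) :
    ex io (cp io x) = z * x * z := by
  ext ξ
  show io (ContinuousLinearMap.adjoint io (x (io (ContinuousLinearMap.adjoint io ξ))))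
    = z (x (z ξ))
  rw [h.ia, h.ia]

theorem io_norm {io : K →L[ℂ] H} {z : H →L[ℂ] H} (h : Emb io z) : ‖io‖ ≤ 1 := by
  have h1 : ‖ContinuousLinearMap.adjoint io ∘L io‖ = ‖io‖ * ‖io‖ :=
    ContinuousLinearMap.norm_adjoint_comp_self io
  rw [h.a] at h1
  have h2 : ‖(1 : K →L[ℂ] K)‖ ≤ 1 := ContinuousLinearMap.norm_id_le
  nlinarith [norm_nonneg io]

theorem ex_norm {io : K →L[ℂ] H} {z : H →L[ℂ] H} (h : Emb io z) (t : K →L[ℂ] K) :
    ‖ex io t‖ ≤ ‖t‖ := by
  unfold ex
  have h1 := io_norm h
  have h2 : ‖ContinuousLinearMap.adjoint io‖ ≤ 1 := by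
    rw [LinearIsometryEquiv.norm_map]; exact h1
  calc ‖io ∘L t ∘L ContinuousLinearMap.adjoint io‖
      ≤ ‖io‖ * ‖t ∘L ContinuousLinearMap.adjoint io‖ := ContinuousLinearMap.opNorm_comp_le _ _
    _ ≤ 1 * (‖t‖ * 1) := by
        apply mul_le_mul h1 _ (norm_nonneg _) zero_le_one
        exact (ContinuousLinearMap.opNorm_comp_le _ _).trans
          (mul_le_mul_of_nonneg_left h2 (norm_nonneg t))
    _ = ‖t‖ := by ring

theorem ex_inj {io : K →L[ℂ] H} {z : H →L[ℂ] H} (h : Emb io z) {s t : K →L[ℂ] K}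
    (he : ex io s = ex io t) : s = t := by
  rw [← cp_ex h s, ← cp_ex h t, he]

theorem z_ex {io : K →L[ℂ] H} {z : H →L[ℂ] H} (h : Emb io z) (t : K →L[ℂ] K) :
    z * ex io t = ex io t := by
  have := ex_mul h 1 t
  rw [one_mul, ex_one h] at this
  exact this.symm

theorem ex_z {io : K →L[ℂ] H} {z : H →L[ℂ] H} (h : Emb io z) (t : K →L[ℂ] K) :
    ex io t * z = ex io t := by
  have := ex_mul h t 1
  rw [mul_one, ex_one h] at this
  exact this.symm

theorem cp_mul_right {io : K →L[ℂ] H} {z : H →L[ℂ] H} (h : Emb io z) (y : H →L[ℂ] H)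
    (hyz : y * z = z * y) (t : K →L[ℂ] K) : ex io (cp io y * t) = y * ex io t := by
  rw [ex_mul h, ex_cp h, ← hyz, mul_assoc y z z, h.c.2, mul_assoc, z_ex h]

theorem cp_mul_left {io : K →L[ℂ] H} {z : H →L[ℂ] H} (h : Emb io z) (y : H →L[ℂ] H)
    (hyz : y * z = z * y) (t : K →L[ℂ] K) : ex io (t * cp io y) = ex io t * y := by
  rw [ex_mul h, ex_cp h, mul_assoc z y z, hyz, ← mul_assoc z z y, h.c.2, ← mul_assoc, ex_z h]

/-- the restriction of `M` to the range of the central projection `z` -/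
def cut (M : VonNeumannAlgebra H) {z : H →L[ℂ] H} (hz : IsCP M z) {io : K →L[ℂ] H}
    (h : Emb io z) : VonNeumannAlgebra K where
  carrier := {t | ex io t ∈ M}
  mul_mem' := by
    intro a b ha hb
    show ex io (a * b) ∈ M
    rw [ex_mul h]
    exact mul_mem ha hb
  one_mem' := by
    show ex io 1 ∈ M
    rw [ex_one h]
    exact hz.2.1
  add_mem' := by
    intro a b ha hb
    show ex io (a + b) ∈ M
    rw [ex_add]
    exact add_mem ha hb
  zero_mem' := by
    show ex io 0 ∈ M
    rw [ex_zero]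
    exact zero_mem M
  algebraMap_mem' := by
    intro c
    show ex io (algebraMap ℂ _ c) ∈ M
    rw [Algebra.algebraMap_eq_smul_one, ex_smul, ex_one h]
    exact vn_smul M c hz.2.1
  star_mem' := by
    intro a ha
    show ex io (star a) ∈ M
    rw [ex_star]
    exact star_mem ha
  centralizer_centralizer' := by
    apply Set.Subset.antisymm
    · intro t ht
      show ex io t ∈ M
      apply mem_of_comm
      intro y hy
      have hyz : y * z = z * y := hy z hz.2.1
      have h1 : cp io y ∈ Set.centralizer {t : K →L[ℂ] K | ex io t ∈ M} := by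
        intro r hr
        apply ex_inj h
        rw [cp_mul_left h y hyz, cp_mul_right h y hyz]
        exact (hy _ hr).symm
      have h2 : cp io y * t = t * cp io y := ht _ h1
      have h3 := congrArg (ex io) h2
      rw [cp_mul_left h y hyz, cp_mul_right h y hyz] at h3
      exact h3
    · exact Set.subset_centralizer_centralizer

theorem mem_cut {M : VonNeumannAlgebra H} {z : H →L[ℂ] H} {hz : IsCP M z} {io : K →L[ℂ] H}
    {h : Emb io z} {t : K →L[ℂ] K} : t ∈ cut M hz h ↔ ex io t ∈ M := Iff.rfl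

theorem cp_mem {M : VonNeumannAlgebra H} {z : H →L[ℂ] H} {hz : IsCP M z} {io : K →L[ℂ] H}
    {h : Emb io z} {x : H →L[ℂ] H} (hx : x ∈ M) : cp io x ∈ cut M hz h := by
  rw [mem_cut, ex_cp h]
  exact mul_mem (mul_mem hz.2.1 hx) hz.2.1

theorem cen_cut {M : VonNeumannAlgebra H} {z : H →L[ℂ] H} {hz : IsCP M z} {io : K →L[ℂ] H}
    {h : Emb io z} {c : K →L[ℂ] K} (hc : IsCen (cut M hz h) c) : IsCen M (ex io c) := by
  refine ⟨hc.1, fun a ha => ?_⟩
  have haz : a * z = z * a := (hz.2.2 a ha).symm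
  have h1 := hc.2 _ (cp_mem (hz := hz) (h := h) ha)
  have h3 := congrArg (ex io) h1
  rw [cp_mul_left h a haz, cp_mul_right h a haz] at h3
  exact h3

/-- a generator of the restriction gives generators of the piece -/
theorem gen_of_cut {M : VonNeumannAlgebra H} {z : H →L[ℂ] H} (hz : IsCP M z) {io : K →L[ℂ] H}
    (h : Emb io z) (T : K →L[ℂ] K) (hT : ((cut M hz h : VonNeumannAlgebra K) :
      Set (K →L[ℂ] K)) = Set.centralizer (Set.centralizer {T, star T})) : Gen M z := by
  have hTm : T ∈ cut M hz h := by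
    have h1 : T ∈ Set.centralizer (Set.centralizer ({T, star T} : Set (K →L[ℂ] K))) :=
      Set.subset_centralizer_centralizer (by simp)
    rw [← hT] at h1
    exact h1
  have hTsm : star T ∈ cut M hz h := star_mem hTm
  refine ⟨ex io (T + star T), ex io (Complex.I • (T - star T)), ?_, ?_, ?_, ?_, z_ex h _,
    z_ex h _, ?_⟩
  · exact mem_cut.mp (add_mem hTm hTsm)
  · exact mem_cut.mp (vn_smul _ _ (sub_mem hTm hTsm))
  · rw [← ex_star, star_add, star_star, add_comm]
  · rw [← ex_star, star_smul, star_sub, star_star]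
    congr 1
    simp only [RCLike.star_def, Complex.conj_I]
    rw [neg_smul, ← smul_neg, neg_sub]
  · intro y h1 h2 hyz x hx
    have g1 : cp io y * (T + star T) = (T + star T) * cp io y := by
      apply ex_inj h
      rw [cp_mul_left h y hyz, cp_mul_right h y hyz, h1]
    have g2 : cp io y * (Complex.I • (T - star T)) = (Complex.I • (T - star T)) * cp io y := by
      apply ex_inj h
      rw [cp_mul_left h y hyz, cp_mul_right h y hyz, h2]
    rw [mul_smul_comm, smul_mul_assoc] at g2
    have g3 := smul_right_injective (K →L[ℂ] K) Complex.I_ne_zero g2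
    rw [mul_add, add_mul] at g1
    rw [mul_sub, sub_mul] at g3
    have g4 : cp io y * T = T * cp io y := by
      apply smul_right_injective (K →L[ℂ] K) (two_ne_zero (α := ℂ))
      show (2 : ℂ) • (cp io y * T) = (2 : ℂ) • (T * cp io y)
      rw [two_smul, two_smul]
      calc cp io y * T + cp io y * T = (cp io y * T + cp io y * star T) +
            (cp io y * T - cp io y * star T) := by abel
        _ = (T * cp io y + star T * cp io y) + (T * cp io y - star T * cp io y) := by rw [g1, g3]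
        _ = T * cp io y + T * cp io y := by abel
    have g5 : cp io y * star T = star T * cp io y := by
      rw [g4] at g1
      exact add_left_cancel g1
    have g6 : cp io y ∈ Set.centralizer ({T, star T} : Set (K →L[ℂ] K)) := by
      intro m hm
      rcases hm with rfl | hm
      · exact g4.symm
      · rw [Set.mem_singleton_iff] at hm
        rw [hm]; exact g5.symm
    have g7 : cp io x ∈ Set.centralizer (Set.centralizer ({T, star T} :
        Set (K →L[ℂ] K))) := by
      rw [← hT]
      exact cp_mem hx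
    have g8 : cp io y * cp io x = cp io x * cp io y := g7 _ g6
    have g9 := congrArg (ex io) g8
    rw [cp_mul_left h y hyz, cp_mul_right h y hyz, ex_cp h] at g9
    have e1 : z * x * z = z * x := by
      rw [mul_assoc, ← hz.2.2 x hx, ← mul_assoc, hz.1.2]
    rw [e1] at g9
    exact g9

theorem noab_cut {M : VonNeumannAlgebra H} {z : H →L[ℂ] H} (hz : IsCP M z) {io : K →L[ℂ] H}
    (h : Emb io z) (hab : NoAb M z) : NoAb (cut M hz h) 1 := by
  intro e he hep _ hea
  have h1 := hab (ex io e) he ⟨by rw [← ex_star, hep.1], by rw [← ex_mul h, hep.2]⟩ (z_ex h e) ?_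
  · apply ex_inj h
    rw [h1, ex_zero]
  · intro x hx ε hε
    obtain ⟨c, hc, hn⟩ := hea (cp io x) (cp_mem hx) ε hε
    refine ⟨ex io c, cen_cut hc, ?_⟩
    have e1 : ex io e * x * ex io e - ex io c * ex io e = ex io (e * cp io x * e - c * e) := by
      rw [ex_sub, ex_mul h, ex_mul h, ex_mul h, ex_cp h]
      congr 1
      calc ex io e * x * ex io e = (ex io e * z) * x * (z * ex io e) := by rw [ex_z h, z_ex h]
        _ = ex io e * (z * x * z) * ex io e := by simp only [mul_assoc]
    rw [e1]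
    exact (ex_norm h _).trans hn

theorem fin_cut {M : VonNeumannAlgebra H} {z : H →L[ℂ] H} (hz : IsCP M z) {io : K →L[ℂ] H}
    (h : Emb io z) (hf : ∀ v ∈ M, star v * v = z → z * v = v → v * star v = z) :
    ∀ v ∈ cut M hz h, star v * v = 1 → v * star v = 1 := by
  intro v hv hvv
  have h1 := hf (ex io v) hv (by rw [← ex_star, ← ex_mul h, hvv, ex_one h]) (z_ex h v)
  apply ex_inj h
  rw [ex_mul h, ex_star, h1, ex_one h]

end H360R2.GN
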