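import Pool.Agent.H360R2.GN.RedFin
import Pool.Agent.H917R2.Tr.All

namespace H360R2.GN

/-- block 5 of the generator problem: `II1Z` implies the frozen statement. -/
theorem reductionThm : Pool.Agent.H735G.ReductionThm :=
  reduction_of_trace H917R2.Tr.tr_main

end H360R2.GN
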