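import Mathlib
import Pool.Agent.H360R2.GN.Core

/-!
Properly infinite pieces are generated by two selfadjoint elements (Wogen's trick).
-/

set_option autoImplicit false

open scoped ComplexOrder InnerProductSpace ComplexConjugate Topology
open Finset Filter

noncomputable section

namespace H360R2.GN

open H759R2.Kad H710R2.DP

variable {H : Type} [NormedAddCommGroup H] [InnerProductSpace ℂ H] [CompleteSpace H]

/-- the range projections of the partial isometries form a partition -/
theorem part_of {z : H →L[ℂ] H} {v : ℕ → (H →L[ℂ] H)} (hPI : ∀ n, IsPI (v n))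
    (horth : ∀ m n, m ≠ n → star (v m) * v n = 0) (hz : ∀ n, z * v n = v n)
    (hc : ∀ y : H →L[ℂ] H, (∀ n, y * v n = 0) → y * z = 0) (hzs : star z = z) :
    Part z (fun n => v n * star (v n)) where
  pr n := by
    refine ⟨by rw [star_mul, star_star], ?_⟩
    calc v n * star (v n) * (v n * star (v n)) = (v n * star (v n) * v n) * star (v n) := by
          simp only [mul_assoc]
      _ = v n * star (v n) := by rw [hPI n]
  orth m n h := by
    calc v m * star (v m) * (v n * star (v n)) = v m * (star (v m) * v n) * star (v n) := by
          simp only [mul_assoc]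
      _ = 0 := by rw [horth m n h]; simp
  zE n := by rw [← mul_assoc, hz]
  Ez n := by
    have := congrArg star (hz n)
    rw [star_mul, hzs] at this
    rw [mul_assoc, this]
  comp w hw := by
    apply hc
    intro n
    calc w * v n = w * (v n * star (v n) * v n) := by rw [hPI n]
      _ = (w * (v n * star (v n))) * v n := by simp only [mul_assoc]
      _ = 0 := by rw [hw n, zero_mul]
  zsa := hzs

/-- the off diagonal generator -/
def od (v : ℕ → (H →L[ℂ] H)) : H →L[ℂ] H :=
  ∑' n : ℕ, ((1 / 2 : ℝ) ^ n) • (v (n + 1) * star (v n) + v n * star (v (n + 1)))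

theorem od_summable {v : ℕ → (H →L[ℂ] H)} (hPI : ∀ n, IsPI (v n)) :
    Summable (fun n : ℕ => ((1 / 2 : ℝ) ^ n) •
      (v (n + 1) * star (v n) + v n * star (v (n + 1)))) := by
  apply Summable.of_norm_bounded (g := fun n : ℕ => (1 / 2 : ℝ) ^ n * 2)
  · exact (summable_geometric_of_lt_one (by norm_num) (by norm_num)).mul_right 2
  · intro n
    rw [norm_smul, Real.norm_of_nonneg (by positivity)]
    apply mul_le_mul_of_nonneg_left _ (by positivity)
    have h1 : ∀ a b : ℕ, ‖v a * star (v b)‖ ≤ 1 := by
      intro a b
      calc ‖v a * star (v b)‖ ≤ ‖v a‖ * ‖star (v b)‖ := norm_mul_le _ _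
        _ ≤ 1 * 1 := mul_le_mul (pi_norm (hPI a)) (star_norm (hPI b)) (norm_nonneg _) zero_le_one
        _ = 1 := by norm_num
    calc _ ≤ ‖v (n + 1) * star (v n)‖ + ‖v n * star (v (n + 1))‖ := norm_add_le _ _
      _ ≤ 1 + 1 := add_le_add (h1 _ _) (h1 _ _)
      _ = 2 := by norm_num

theorem od_star {v : ℕ → (H →L[ℂ] H)} : star (od v) = od v := by
  unfold od
  rw [tsum_star]
  congr 1
  funext n
  rw [star_smul, star_add, star_mul, star_mul, star_star, star_star, add_comm]
  simp

theorem od_comm {v : ℕ → (H →L[ℂ] H)} (hPI : ∀ n, IsPI (v n)) (y : H →L[ℂ] H)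
    (h : ∀ m n, y * (v m * star (v n)) = (v m * star (v n)) * y) : y * od v = od v * y := by
  unfold od
  have hs := od_summable hPI
  rw [← hs.tsum_mul_left, ← hs.tsum_mul_right]
  congr 1
  funext n
  rw [mul_smul_comm, smul_mul_assoc, mul_add, add_mul, h, h]

theorem od_z {z : H →L[ℂ] H} {v : ℕ → (H →L[ℂ] H)} (hPI : ∀ n, IsPI (v n))
    (hz : ∀ n, z * v n = v n) : z * od v = od v := by
  unfold od
  have hs := od_summable hPI
  rw [← hs.tsum_mul_left]
  congr 1
  funext n
  rw [mul_smul_comm, mul_add, ← mul_assoc, ← mul_assoc, hz, hz]

/-- the matrix entry of the off diagonal generator -/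
theorem od_entry {v : ℕ → (H →L[ℂ] H)} (hPI : ∀ n, IsPI (v n))
    (horth : ∀ m n, m ≠ n → star (v m) * v n = 0) (n : ℕ) :
    (v (n + 1) * star (v (n + 1))) * od v * (v n * star (v n))
      = ((1 / 2 : ℝ) ^ n) • (v (n + 1) * (star (v (n + 1)) * v (n + 1)) *
          ((star (v n) * v n) * star (v n))) := by
  unfold od
  have hs := od_summable hPI
  rw [← hs.tsum_mul_left, ← (hs.mul_left _).tsum_mul_right]
  rw [tsum_eq_single n]
  · rw [mul_smul_comm, smul_mul_assoc]
    congr 1
    have e1 : star (v (n + 1)) * v n = 0 := horth _ _ (by omega)
    calc v (n + 1) * star (v (n + 1)) * (v (n + 1) * star (v n) + v n * star (v (n + 1))) *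
          (v n * star (v n))
        = v (n + 1) * (star (v (n + 1)) * v (n + 1)) * ((star (v n) * v n) * star (v n))
          + v (n + 1) * (star (v (n + 1)) * v n) * star (v (n + 1)) * (v n * star (v n)) := by
          simp only [mul_add, add_mul, mul_assoc]
      _ = _ := by rw [e1]; simp
  · intro m hm
    rw [mul_smul_comm, smul_mul_assoc]
    have e1 : v (n + 1) * star (v (n + 1)) * (v (m + 1) * star (v m)) * (v n * star (v n)) = 0 := by
      have : star (v (n + 1)) * v (m + 1) = 0 := horth _ _ (by omega)
      calc _ = v (n + 1) * (star (v (n + 1)) * v (m + 1)) * star (v m) * (v n * star (v n)) := by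
            simp only [mul_assoc]
        _ = 0 := by rw [this]; simp
    have e2 : v (n + 1) * star (v (n + 1)) * (v m * star (v (m + 1))) * (v n * star (v n)) = 0 := by
      by_cases h : m = n + 1
      · have : star (v (m + 1)) * v n = 0 := horth _ _ (by omega)
        calc _ = v (n + 1) * star (v (n + 1)) * v m * (star (v (m + 1)) * v n) * star (v n) := by
              simp only [mul_assoc]
          _ = 0 := by rw [this]; simp
      · have : star (v (n + 1)) * v m = 0 := horth _ _ (by omega)
        calc _ = v (n + 1) * (star (v (n + 1)) * v m) * star (v (m + 1)) * (v n * star (v n)) := by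
              simp only [mul_assoc]
          _ = 0 := by rw [this]; simp
    rw [mul_add, add_mul, e1, e2]
    simp

theorem genC [TopologicalSpace.SeparableSpace H] (M : VonNeumannAlgebra H) (z : H →L[ℂ] H)
    (hz : IsCP M z) (hC : PieceC M z) : Gen M z := by
  obtain ⟨v, hvM, hPI, hee, h0e, horth, hzv, hcomp⟩ := hC
  have hP : Part z (fun n => v n * star (v n)) := part_of hPI horth hzv hcomp hz.1.1
  set e := star (v 1) * v 1 with he
  have heM : e ∈ M := mul_mem (star_mem (hvM 1)) (hvM 1)
  have hve : ∀ n, v n * e = v n := by
    intro n
    rcases n with _ | n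
    · exact h0e
    · rw [← hee n, ← mul_assoc]; exact hPI (n + 1)
  have hve' : ∀ n, e * star (v n) = star (v n) := by
    intro n
    have := congrArg star (hve n)
    rw [star_mul] at this
    have hes : star e = e := by rw [he, star_mul, star_star]
    rw [hes] at this
    exact this
  have hee' : e * e = e := by
    have := hve 1
    rw [he, mul_assoc, ← he, this]
  -- generators of the corner
  obtain ⟨x, hx, hgen⟩ := exists_seq_of_set
    {x : H →L[ℂ] H | x ∈ M ∧ star x = x ∧ ‖x‖ ≤ 1 ∧ e * x * e = x}
    (fun x hx => hx.2.2.1) ⟨0, zero_mem M, star_zero _, by simp, by simp⟩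
  let K : ℕ → (H →L[ℂ] H) := fun n =>
    match n with
    | 0 => 0
    | (k + 1) => v (k + 1) * x k * star (v (k + 1))
  have hKM : ∀ n, K n ∈ M := by
    intro n
    rcases n with _ | k
    · exact zero_mem M
    · exact mul_mem (mul_mem (hvM _) (hx k).1) (star_mem (hvM _))
  have hK1 : ∀ n, ‖K n‖ ≤ 1 := by
    intro n
    rcases n with _ | k
    · show ‖(0 : H →L[ℂ] H)‖ ≤ 1
      simp
    · show ‖v (k + 1) * x k * star (v (k + 1))‖ ≤ 1
      calc ‖v (k + 1) * x k * star (v (k + 1))‖ ≤ ‖v (k + 1) * x k‖ * ‖star (v (k + 1))‖ :=
            norm_mul_le _ _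
        _ ≤ (‖v (k + 1)‖ * ‖x k‖) * ‖star (v (k + 1))‖ :=
            mul_le_mul_of_nonneg_right (norm_mul_le _ _) (norm_nonneg _)
        _ ≤ (1 * 1) * 1 := by
            apply mul_le_mul _ (star_norm (hPI _)) (norm_nonneg _) (by norm_num)
            exact mul_le_mul (pi_norm (hPI _)) (hx k).2.2.1 (norm_nonneg _) zero_le_one
        _ = 1 := by norm_num
  have hKE : ∀ n, (v n * star (v n)) * K n = K n := by
    intro n
    rcases n with _ | k
    · show _ * (0 : H →L[ℂ] H) = 0
      simp
    · show v (k + 1) * star (v (k + 1)) * (v (k + 1) * x k * star (v (k + 1)))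
        = v (k + 1) * x k * star (v (k + 1))
      calc _ = (v (k + 1) * star (v (k + 1)) * v (k + 1)) * x k * star (v (k + 1)) := by
            simp only [mul_assoc]
        _ = _ := by rw [hPI (k + 1)]
  have hKs : ∀ n, star (K n) = K n := by
    intro n
    rcases n with _ | k
    · show star (0 : H →L[ℂ] H) = 0
      simp
    · show star (v (k + 1) * x k * star (v (k + 1))) = v (k + 1) * x k * star (v (k + 1))
      rw [star_mul, star_mul, star_star, (hx k).2.1, mul_assoc]
  refine ⟨dg (fun n => v n * star (v n)) K, od v, ?_, ?_, dg_star hP.pr hK1 hKs, od_star,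
    dg_z hP hK1 hKE, od_z hPI hzv, ?_⟩
  · apply mem_of_comm
    intro y hy
    exact dg_comm hP.pr hK1 y (fun n => hy _ (mul_mem (hvM n) (star_mem (hvM n))))
      (fun n => hy _ (hKM n))
  · apply mem_of_comm
    intro y hy
    exact od_comm hPI y (fun m n => hy _ (mul_mem (hvM m) (star_mem (hvM n))))
  · intro y hyA hyB hyz
    have hsv : ∀ y : H →L[ℂ] H, y * dg (fun n => v n * star (v n)) K
        = dg (fun n => v n * star (v n)) K * y → y * od v = od v * y → y * z = z * y →
        ∀ n, y * (v (n + 1) * star (v n)) = (v (n + 1) * star (v n)) * y := by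
      intro y hyA hyB hyz n
      have hd := diag hP hK1 hKE hKs y hyA hyz
      have e1 := (hd n).1
      have e2 := (hd (n + 1)).1
      have e3 := od_entry hPI horth n
      have e4 : v (n + 1) * (star (v (n + 1)) * v (n + 1)) * ((star (v n) * v n) * star (v n))
          = v (n + 1) * star (v n) := by
        have a1 : v (n + 1) * (star (v (n + 1)) * v (n + 1)) = v (n + 1) := by
          rw [← mul_assoc]; exact hPI _
        have a2 : (star (v n) * v n) * star (v n) = star (v n) := by
          have := congrArg star (hPI n)
          rw [star_mul, star_mul, star_star] at this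
          rw [mul_assoc]; exact this
        rw [a1, a2]
      rw [e4] at e3
      have e5 : y * ((v (n + 1) * star (v (n + 1))) * od v * (v n * star (v n)))
          = ((v (n + 1) * star (v (n + 1))) * od v * (v n * star (v n))) * y := by
        calc y * ((v (n + 1) * star (v (n + 1))) * od v * (v n * star (v n)))
            = (y * (v (n + 1) * star (v (n + 1)))) * od v * (v n * star (v n)) := by
              simp only [mul_assoc]
          _ = (v (n + 1) * star (v (n + 1))) * (y * od v) * (v n * star (v n)) := by
              rw [e2]; simp only [mul_assoc]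
          _ = (v (n + 1) * star (v (n + 1))) * od v * (y * (v n * star (v n))) := by
              rw [hyB]; simp only [mul_assoc]
          _ = _ := by rw [e1]; simp only [mul_assoc]
      rw [e3, mul_smul_comm, smul_mul_assoc] at e5
      exact smul_right_injective (H →L[ℂ] H)
        (show ((1 / 2 : ℝ) ^ n) ≠ 0 by positivity) e5
    have hAs : star (dg (fun n => v n * star (v n)) K) = dg (fun n => v n * star (v n)) K :=
      dg_star hP.pr hK1 hKs
    have hstar : ∀ y : H →L[ℂ] H, y * dg (fun n => v n * star (v n)) K
        = dg (fun n => v n * star (v n)) K * y → star y * dg (fun n => v n * star (v n)) K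
        = dg (fun n => v n * star (v n)) K * star y := by
      intro y hy
      have := congrArg star hy
      rw [star_mul, star_mul, hAs] at this
      exact this.symm
    have hstarB : star y * od v = od v * star y := by
      have := congrArg star hyB
      rw [star_mul, star_mul, od_star] at this
      exact this.symm
    have hstarz : star y * z = z * star y := by
      have := congrArg star hyz
      rw [star_mul, star_mul, hz.1.1] at this
      exact this.symm
    -- lower triangular units
    have hlow : ∀ y : H →L[ℂ] H, y * dg (fun n => v n * star (v n)) K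
        = dg (fun n => v n * star (v n)) K * y → y * od v = od v * y → y * z = z * y →
        ∀ n k, y * (v (n + k) * star (v n)) = (v (n + k) * star (v n)) * y := by
      intro y hyA hyB hyz n k
      induction k with
      | zero => exact (diag hP hK1 hKE hKs y hyA hyz n).1
      | succ k ih =>
        have g := hsv y hyA hyB hyz (n + k)
        by_cases h0 : n + k = 0
        · have hn : n = 0 := by omega
          have hk : k = 0 := by omega
          subst hn; subst hk
          exact g
        · obtain ⟨m, hm⟩ : ∃ m, n + k = m + 1 := ⟨n + k - 1, by omega⟩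
          have e1 : v (n + (k + 1)) * star (v n)
              = (v (n + k + 1) * star (v (n + k))) * (v (n + k) * star (v n)) := by
            have a1 : star (v (n + k)) * v (n + k) = e := by rw [hm]; exact hee m
            calc v (n + (k + 1)) * star (v n) = v (n + k + 1) * star (v n) := by rw [add_assoc]
              _ = (v (n + k + 1) * e) * star (v n) := by rw [hve]
              _ = (v (n + k + 1) * (star (v (n + k)) * v (n + k))) * star (v n) := by rw [a1]
              _ = _ := by simp only [mul_assoc]
          rw [e1]
          calc y * (v (n + k + 1) * star (v (n + k)) * (v (n + k) * star (v n)))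
              = (y * (v (n + k + 1) * star (v (n + k)))) * (v (n + k) * star (v n)) := by
                simp only [mul_assoc]
            _ = (v (n + k + 1) * star (v (n + k))) * (y * (v (n + k) * star (v n))) := by
                rw [g]; simp only [mul_assoc]
            _ = _ := by rw [ih]; simp only [mul_assoc]
    have hall : ∀ m n, y * (v m * star (v n)) = (v m * star (v n)) * y := by
      intro m n
      rcases le_total n m with h | h
      · obtain ⟨k, rfl⟩ := Nat.exists_eq_add_of_le h
        exact hlow y hyA hyB hyz n k
      · obtain ⟨k, rfl⟩ := Nat.exists_eq_add_of_le h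
        have := congrArg star (hlow (star y) (hstar y hyA) hstarB hstarz m k)
        rw [star_mul, star_mul, star_mul, star_mul, star_star, star_star] at this
        exact this.symm
    apply core M z hz v hvM 1 hP hve y hyz hall
    intro b hbM hbe
    rw [← he] at hbe
    -- compression of `y` commutes with the corner
    set y' := star (v 1) * y * v 1 with hy'
    have hyx : ∀ k, y' * x k = x k * y' := by
      intro k
      have hxe := (hx k).2.2.2
      have hxe1 : e * x k = x k := by
        calc e * x k = e * (e * x k * e) := by rw [hxe]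
          _ = (e * e) * x k * e := by simp only [mul_assoc]
          _ = x k := by rw [hee', hxe]
      have hxe2 : x k * e = x k := by
        calc x k * e = (e * x k * e) * e := by rw [hxe]
          _ = e * x k * (e * e) := by simp only [mul_assoc]
          _ = x k := by rw [hee', hxe]
      have hKk : y * (v (k + 1) * x k * star (v (k + 1)))
          = (v (k + 1) * x k * star (v (k + 1))) * y :=
        (diag hP hK1 hKE hKs y hyA hyz (k + 1)).2
      have hK1x : y * (v 1 * x k * star (v 1)) = (v 1 * x k * star (v 1)) * y := by
        have e1 : v 1 * x k * star (v 1) = (v 1 * star (v (k + 1))) *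
            (v (k + 1) * x k * star (v (k + 1))) * (v (k + 1) * star (v 1)) := by
          have a1 := hee k
          calc v 1 * x k * star (v 1) = v 1 * (e * x k * e) * star (v 1) := by rw [hxe]
            _ = v 1 * ((star (v (k + 1)) * v (k + 1)) * x k * (star (v (k + 1)) * v (k + 1))) *
                star (v 1) := by rw [a1]
            _ = _ := by simp only [mul_assoc]
        rw [e1]
        have g1 := hall 1 (k + 1)
        have g3 := hall (k + 1) 1
        calc y * (v 1 * star (v (k + 1)) * (v (k + 1) * x k * star (v (k + 1))) *
              (v (k + 1) * star (v 1)))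
            = (y * (v 1 * star (v (k + 1)))) * (v (k + 1) * x k * star (v (k + 1))) *
              (v (k + 1) * star (v 1)) := by simp only [mul_assoc]
          _ = (v 1 * star (v (k + 1))) * (y * (v (k + 1) * x k * star (v (k + 1)))) *
              (v (k + 1) * star (v 1)) := by rw [g1]; simp only [mul_assoc]
          _ = (v 1 * star (v (k + 1))) * (v (k + 1) * x k * star (v (k + 1))) *
              (y * (v (k + 1) * star (v 1))) := by rw [hKk]; simp only [mul_assoc]
          _ = _ := by rw [g3]; simp only [mul_assoc]
      have b1 : y' * x k = star (v 1) * (y * (v 1 * x k * star (v 1))) * v 1 := by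
        calc y' * x k = star (v 1) * y * v 1 * (x k * e) := by rw [hxe2, hy']
          _ = star (v 1) * y * v 1 * (x k * (star (v 1) * v 1)) := by rw [he]
          _ = _ := by simp only [mul_assoc]
      have b2 : x k * y' = star (v 1) * ((v 1 * x k * star (v 1)) * y) * v 1 := by
        calc x k * y' = (e * x k) * (star (v 1) * y * v 1) := by rw [hxe1, hy']
          _ = (star (v 1) * v 1) * x k * (star (v 1) * y * v 1) := by rw [he]
          _ = _ := by simp only [mul_assoc]
      rw [b1, b2, hK1x]
    have hcomm := hgen y' hyx
    have hbcomm : y' * b = b * y' := by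
      apply comm_of_sa (y := y') {x : H →L[ℂ] H | x ∈ M ∧ e * x * e = x} _ _ _ _ b ⟨hbM, hbe⟩
      · intro a ha b hb
        exact ⟨add_mem ha.1 hb.1, by rw [mul_add, add_mul, ha.2, hb.2]⟩
      · intro a ha
        refine ⟨star_mem ha.1, ?_⟩
        have hes : star e = e := by rw [he, star_mul, star_star]
        have h2 : star (e * a * e) = e * star a * e := by
          rw [star_mul (e * a) e, star_mul e a, hes]
          exact (mul_assoc e (star a) e).symm
        rw [← h2, ha.2]
      · intro c a ha
        refine ⟨vn_smul M c ha.1, ?_⟩
        rw [mul_smul_comm, smul_mul_assoc, ha.2]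
      · intro b hb hbs hb1
        exact hcomm b ⟨hb.1, hbs, hb1, hb.2⟩
    have c1 : v 1 * e = v 1 := hve 1
    have hE1 : y * (v 1 * star (v 1)) = (v 1 * star (v 1)) * y := hall 1 1
    calc y * (v 1 * b * star (v 1)) = y * ((v 1 * star (v 1) * v 1) * b * star (v 1)) := by
          rw [hPI 1]
      _ = (y * (v 1 * star (v 1))) * v 1 * b * star (v 1) := by simp only [mul_assoc]
      _ = v 1 * ((star (v 1) * y * v 1) * b) * star (v 1) := by rw [hE1]; simp only [mul_assoc]
      _ = v 1 * (b * (star (v 1) * y * v 1)) * star (v 1) := by rw [← hy', hbcomm]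
      _ = v 1 * b * star (v 1) * (y * (v 1 * star (v 1))) := by simp only [mul_assoc]
      _ = v 1 * b * (star (v 1) * v 1 * star (v 1)) * y := by rw [hE1]; simp only [mul_assoc]
      _ = v 1 * b * star (v 1) * y := by
          have : star (v 1) * v 1 * star (v 1) = star (v 1) := by
            have := congrArg star (hPI 1)
            rw [star_mul, star_mul, star_star] at this
            rw [mul_assoc]; exact this
          rw [this]

end H360R2.GN
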