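import Mathlib
import Pool.Agent.H360R2.GN.GenC
import Pool.Agent.H360R2.GN.Cen

/-!
Homogeneous type I pieces are generated by two selfadjoint elements.
-/

set_option autoImplicit false

open scoped ComplexOrder InnerProductSpace ComplexConjugate Topology
open Finset Filter

noncomputable section

namespace H360R2.GN

open H759R2.Kad H710R2.DP

variable {H : Type} [NormedAddCommGroup H] [InnerProductSpace ℂ H] [CompleteSpace H]

/-- subdiagonal units -/
theorem sub_comm {z : H →L[ℂ] H} {v K : ℕ → (H →L[ℂ] H)} (hPI : ∀ n, IsPI (v n))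
    (horth : ∀ m n, m ≠ n → star (v m) * v n = 0)
    (hP : Part z (fun n => v n * star (v n))) (hK1 : ∀ n, ‖K n‖ ≤ 1)
    (hKE : ∀ n, (v n * star (v n)) * K n = K n) (hKs : ∀ n, star (K n) = K n)
    (y : H →L[ℂ] H) (hyA : y * dg (fun n => v n * star (v n)) K
        = dg (fun n => v n * star (v n)) K * y) (hyB : y * od v = od v * y)
    (hyz : y * z = z * y) (n : ℕ) :
    y * (v (n + 1) * star (v n)) = (v (n + 1) * star (v n)) * y := by
  have hd := diag hP hK1 hKE hKs y hyA hyz
  have e1 := (hd n).1
  have e2 := (hd (n + 1)).1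
  have e3 := od_entry hPI horth n
  have e4 : v (n + 1) * (star (v (n + 1)) * v (n + 1)) * ((star (v n) * v n) * star (v n))
      = v (n + 1) * star (v n) := by
    have a1 : v (n + 1) * (star (v (n + 1)) * v (n + 1)) = v (n + 1) := by
      rw [← mul_assoc]; exact hPI _
    have a2 : (star (v n) * v n) * star (v n) = star (v n) := by
      have := congrArg star (hPI n)
      rw [star_mul, star_mul, star_star] at this
      rw [mul_assoc]; exact this
    rw [a1, a2]
  rw [e4] at e3
  have e5 : y * ((v (n + 1) * star (v (n + 1))) * od v * (v n * star (v n)))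
      = ((v (n + 1) * star (v (n + 1))) * od v * (v n * star (v n))) * y := by
    calc y * ((v (n + 1) * star (v (n + 1))) * od v * (v n * star (v n)))
        = (y * (v (n + 1) * star (v (n + 1)))) * od v * (v n * star (v n)) := by
          simp only [mul_assoc]
      _ = (v (n + 1) * star (v (n + 1))) * (y * od v) * (v n * star (v n)) := by
          rw [e2]; simp only [mul_assoc]
      _ = (v (n + 1) * star (v (n + 1))) * od v * (y * (v n * star (v n))) := by
          rw [hyB]; simp only [mul_assoc]
      _ = _ := by rw [e1]; simp only [mul_assoc]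
  rw [e3, mul_smul_comm, smul_mul_assoc] at e5
  exact smul_right_injective (H →L[ℂ] H)
    (show ((1 / 2 : ℝ) ^ n) ≠ 0 by positivity) e5

theorem genA [TopologicalSpace.SeparableSpace H] (hspan : Z_span) (M : VonNeumannAlgebra H)
    (z : H →L[ℂ] H) (hz : IsCP M z) (hA : PieceA M z) : Gen M z := by
  obtain ⟨N, e, hMU, happ⟩ := hA
  let v : ℕ → (H →L[ℂ] H) := fun k => if h : k < N + 1 then e ⟨k, h⟩ 0 else 0
  have hv1 : ∀ k (h : k < N + 1), v k = e ⟨k, h⟩ 0 := fun k h => dif_pos h
  have hv0 : ∀ k, ¬ k < N + 1 → v k = 0 := fun k h => dif_neg h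
  have hvM : ∀ n, v n ∈ M := by
    intro n
    by_cases h : n < N + 1
    · rw [hv1 n h]; exact hMU.mem _ _
    · rw [hv0 n h]; exact zero_mem M
  have hvv : ∀ k (h : k < N + 1), star (v k) * v k = e 0 0 := by
    intro k h
    rw [hv1 k h, hMU.adj, hMU.mul]; simp
  have hPI : ∀ n, IsPI (v n) := by
    intro n
    unfold IsPI
    by_cases h : n < N + 1
    · rw [mul_assoc, hvv n h, hv1 n h, hMU.mul]; simp
    · rw [hv0 n h]; simp
  have horth : ∀ m n, m ≠ n → star (v m) * v n = 0 := by
    intro m n hmn
    by_cases hm : m < N + 1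
    · by_cases hn : n < N + 1
      · rw [hv1 m hm, hv1 n hn, hMU.adj, hMU.mul, if_neg]
        intro h
        apply hmn
        exact congrArg Fin.val h
      · rw [hv0 n hn]; simp
    · rw [hv0 m hm]; simp
  have hzv : ∀ n, z * v n = v n := by
    intro n
    by_cases h : n < N + 1
    · rw [hv1 n h, ← hMU.sum, Finset.sum_mul]
      rw [Finset.sum_eq_single ⟨n, h⟩]
      · rw [hMU.mul]; simp
      · intro i _ hi
        rw [hMU.mul, if_neg hi]
      · intro h'; exact absurd (Finset.mem_univ _) h'
    · rw [hv0 n h]; simp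
  have hcomp : ∀ y : H →L[ℂ] H, (∀ n, y * v n = 0) → y * z = 0 := by
    intro y hy
    rw [← hMU.sum, Finset.mul_sum]
    apply Finset.sum_eq_zero
    intro i _
    have h1 := hy i.1
    rw [hv1 i.1 i.2] at h1
    have h2 : e i i = e i 0 * e 0 i := by rw [hMU.mul]; simp
    rw [h2, ← mul_assoc]
    rw [show e i 0 = e ⟨i.1, i.2⟩ 0 from rfl, h1, zero_mul]
  have hP : Part z (fun n => v n * star (v n)) := part_of hPI horth hzv hcomp hz.1.1
  have hbase : ∀ n, v n * (star (v 0) * v 0) = v n := by
    intro n
    rw [hvv 0 (Nat.succ_pos N)]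
    by_cases h : n < N + 1
    · rw [hv1 n h, hMU.mul]; simp
    · rw [hv0 n h]; simp
  have hv00 : v 0 = e 0 0 := hv1 0 (Nat.succ_pos N)
  obtain ⟨a, ha, has, han, hagen⟩ := central_gen hspan M
  have he00s : star (e 0 0) = e 0 0 := hMU.adj 0 0
  have he00 : e 0 0 * e 0 0 = e 0 0 := by rw [hMU.mul]; simp
  have hea : a * e 0 0 = e 0 0 * a := ha.2 _ (hMU.mem _ _)
  let K : ℕ → (H →L[ℂ] H) := fun n => if n = 0 then (1 / 2 : ℝ) • (a * e 0 0) else 0
  have hK0 : K 0 = (1 / 2 : ℝ) • (a * e 0 0) := if_pos rfl
  have hKn : ∀ n, n ≠ 0 → K n = 0 := fun n h => if_neg h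
  have hKM : ∀ n, K n ∈ M := by
    intro n
    by_cases h : n = 0
    · subst h; rw [hK0]; exact vn_rsmul M _ (mul_mem ha.1 (hMU.mem _ _))
    · rw [hKn n h]; exact zero_mem M
  have hK1 : ∀ n, ‖K n‖ ≤ 1 := by
    intro n
    by_cases h : n = 0
    · subst h
      rw [hK0, norm_smul, Real.norm_of_nonneg (by norm_num)]
      have h1 : ‖a * e 0 0‖ ≤ 4 / 3 * 1 := by
        calc ‖a * e 0 0‖ ≤ ‖a‖ * ‖e 0 0‖ := norm_mul_le _ _
          _ ≤ 4 / 3 * 1 := mul_le_mul han (pr_norm ⟨he00s, he00⟩) (norm_nonneg _) (by norm_num)
      linarith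
    · rw [hKn n h]; simp
  have hKE : ∀ n, (v n * star (v n)) * K n = K n := by
    intro n
    by_cases h : n = 0
    · subst h
      rw [hK0, hv00, he00s, mul_smul_comm, hea, ← mul_assoc, he00, he00]
    · rw [hKn n h]; simp
  have hKs : ∀ n, star (K n) = K n := by
    intro n
    by_cases h : n = 0
    · subst h
      rw [hK0, star_smul, star_mul, he00s, has, ← hea]
      simp
    · rw [hKn n h]; simp
  refine ⟨dg (fun n => v n * star (v n)) K, od v, ?_, ?_, dg_star hP.pr hK1 hKs, od_star,
    dg_z hP hK1 hKE, od_z hPI hzv, ?_⟩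
  · apply mem_of_comm
    intro y hy
    exact dg_comm hP.pr hK1 y (fun n => hy _ (mul_mem (hvM n) (star_mem (hvM n))))
      (fun n => hy _ (hKM n))
  · apply mem_of_comm
    intro y hy
    exact od_comm hPI y (fun m n => hy _ (mul_mem (hvM m) (star_mem (hvM n))))
  · intro y hyA hyB hyz
    have hAs : star (dg (fun n => v n * star (v n)) K) = dg (fun n => v n * star (v n)) K :=
      dg_star hP.pr hK1 hKs
    have hstarA : star y * dg (fun n => v n * star (v n)) K
        = dg (fun n => v n * star (v n)) K * star y := by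
      have := congrArg star hyA
      rw [star_mul, star_mul, hAs] at this
      exact this.symm
    have hstarB : star y * od v = od v * star y := by
      have := congrArg star hyB
      rw [star_mul, star_mul, od_star] at this
      exact this.symm
    have hstarz : star y * z = z * star y := by
      have := congrArg star hyz
      rw [star_mul, star_mul, hz.1.1] at this
      exact this.symm
    have hlow : ∀ y : H →L[ℂ] H, y * dg (fun n => v n * star (v n)) K
        = dg (fun n => v n * star (v n)) K * y → y * od v = od v * y → y * z = z * y →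
        ∀ n k, y * (v (n + k) * star (v n)) = (v (n + k) * star (v n)) * y := by
      intro y hyA hyB hyz n k
      induction k with
      | zero => exact (diag hP hK1 hKE hKs y hyA hyz n).1
      | succ k ih =>
        have g := sub_comm hPI horth hP hK1 hKE hKs y hyA hyB hyz (n + k)
        by_cases h0 : n + k < N + 1
        · have e1 : v (n + (k + 1)) * star (v n)
              = (v (n + k + 1) * star (v (n + k))) * (v (n + k) * star (v n)) := by
            have a1 : star (v (n + k)) * v (n + k) = star (v 0) * v 0 := by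
              rw [hvv _ h0, hvv 0 (Nat.succ_pos N)]
            calc v (n + (k + 1)) * star (v n) = v (n + k + 1) * star (v n) := by rw [add_assoc]
              _ = (v (n + k + 1) * (star (v 0) * v 0)) * star (v n) := by rw [hbase]
              _ = (v (n + k + 1) * (star (v (n + k)) * v (n + k))) * star (v n) := by rw [a1]
              _ = _ := by simp only [mul_assoc]
          rw [e1]
          calc y * (v (n + k + 1) * star (v (n + k)) * (v (n + k) * star (v n)))
              = (y * (v (n + k + 1) * star (v (n + k)))) * (v (n + k) * star (v n)) := by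
                simp only [mul_assoc]
            _ = (v (n + k + 1) * star (v (n + k))) * (y * (v (n + k) * star (v n))) := by
                rw [g]; simp only [mul_assoc]
            _ = _ := by rw [ih]; simp only [mul_assoc]
        · have : v (n + (k + 1)) = 0 := hv0 _ (by omega)
          rw [this]; simp
    have hall : ∀ m n, y * (v m * star (v n)) = (v m * star (v n)) * y := by
      intro m n
      rcases le_total n m with h | h
      · obtain ⟨k, rfl⟩ := Nat.exists_eq_add_of_le h
        exact hlow y hyA hyB hyz n k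
      · obtain ⟨k, rfl⟩ := Nat.exists_eq_add_of_le h
        have := congrArg star (hlow (star y) hstarA hstarB hstarz m k)
        rw [star_mul, star_mul, star_mul, star_mul, star_star, star_star] at this
        exact this.symm
    apply core M z hz v hvM 0 hP hbase y hyz hall
    intro b hbM hbe
    rw [hv00, he00s, he00] at hbe
    -- `y` commutes with `a e 0 0`
    have hae : y * (a * e 0 0) = (a * e 0 0) * y := by
      have h := (diag hP hK1 hKE hKs y hyA hyz 0).2
      rw [hK0, mul_smul_comm, smul_mul_assoc] at h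
      exact smul_right_injective (H →L[ℂ] H) (show (1 / 2 : ℝ) ≠ 0 by norm_num) h
    have hye : y * e 0 0 = e 0 0 * y := by
      have h := hall 0 0
      rw [hv00, he00s, he00] at h
      exact h
    -- the compression of `y` commutes with `a`
    have h1 : (y * e 0 0) * a = a * (y * e 0 0) := by
      calc (y * e 0 0) * a = y * (e 0 0 * a) := mul_assoc _ _ _
        _ = y * (a * e 0 0) := by rw [hea]
        _ = (a * e 0 0) * y := hae
        _ = a * (e 0 0 * y) := mul_assoc _ _ _
        _ = a * (y * e 0 0) := by rw [hye]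
    have h2 := hagen (y * e 0 0) h1
    have hbc : y * b = b * y := by
      have h3 : ‖y * b - b * y‖ ≤ 0 := by
        apply le_of_forall_pos_le_add
        intro ε hε
        obtain ⟨c, hc, hnear⟩ := happ b hbM (ε / (2 * ‖y‖ + 1)) (by positivity)
        rw [hbe] at hnear
        have hyc : y * (c * e 0 0) = (c * e 0 0) * y := by
          calc y * (c * e 0 0) = y * (e 0 0 * c) := by rw [hc.2 _ (hMU.mem 0 0)]
            _ = (y * e 0 0) * c := (mul_assoc _ _ _).symm
            _ = c * (y * e 0 0) := h2 c hc
            _ = c * (e 0 0 * y) := by rw [hye]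
            _ = (c * e 0 0) * y := (mul_assoc _ _ _).symm
        have e1 : y * b - b * y = y * (b - c * e 0 0) - (b - c * e 0 0) * y := by
          rw [mul_sub, sub_mul, hyc]; abel
        rw [e1]
        calc ‖y * (b - c * e 0 0) - (b - c * e 0 0) * y‖
            ≤ ‖y * (b - c * e 0 0)‖ + ‖(b - c * e 0 0) * y‖ := norm_sub_le _ _
          _ ≤ ‖y‖ * ‖b - c * e 0 0‖ + ‖b - c * e 0 0‖ * ‖y‖ :=
              add_le_add (norm_mul_le _ _) (norm_mul_le _ _)
          _ = (2 * ‖y‖) * ‖b - c * e 0 0‖ := by ring
          _ ≤ (2 * ‖y‖ + 1) * ‖b - c * e 0 0‖ :=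
              mul_le_mul_of_nonneg_right (by linarith) (norm_nonneg _)
          _ ≤ (2 * ‖y‖ + 1) * (ε / (2 * ‖y‖ + 1)) :=
              mul_le_mul_of_nonneg_left hnear (by positivity)
          _ = 0 + ε := by
              have : (2 * ‖y‖ + 1) ≠ 0 := by positivity
              field_simp
              ring
      exact sub_eq_zero.mp (norm_le_zero_iff.mp h3)
    rw [hv00, he00s]
    have hb' : e 0 0 * b * e 0 0 = b := hbe
    rw [hb', hbc]

end H360R2.GN
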