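import Mathlib
import Pool.Agent.H360R2.GN.Core

/-!
If every central projection dominates a nonzero one whose piece is generated by two selfadjoint
elements, then the whole algebra has a single generator.
-/

set_option autoImplicit false

open scoped ComplexOrder InnerProductSpace ComplexConjugate Topology
open Finset Filter

noncomputable section

namespace H360R2.GN

open H759R2.Kad H710R2.DP

variable {H : Type} [NormedAddCommGroup H] [InnerProductSpace ℂ H] [CompleteSpace H]

/-- orthogonal nonzero projections on a separable space are countable -/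
theorem countable_of_orth [TopologicalSpace.SeparableSpace H] (S : Set (H →L[ℂ] H))
    (hp : ∀ p ∈ S, IsPr p ∧ p ≠ 0) (ho : ∀ p ∈ S, ∀ q ∈ S, p ≠ q → p * q = 0) :
    S.Countable := by
  have hex : ∀ p : H →L[ℂ] H, p ∈ S → ∃ ξ : H, ‖ξ‖ = 1 ∧ p ξ = ξ := by
    intro p hpS
    obtain ⟨⟨hs, hpp⟩, hne⟩ := hp p hpS
    obtain ⟨η, hη⟩ : ∃ η, p η ≠ 0 := by
      by_contra h
      push Not at h
      exact hne (ContinuousLinearMap.ext (by simpa using h))
    refine ⟨((‖p η‖)⁻¹ : ℂ) • p η, ?_, ?_⟩
    · rw [norm_smul, norm_inv, Complex.norm_real, norm_norm]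
      exact inv_mul_cancel₀ (norm_ne_zero_iff.mpr hη)
    · rw [map_smul]
      congr 1
      exact congrArg (fun T : H →L[ℂ] H => T η) hpp
  choose! x hx1 hx2 using hex
  refine Set.PairwiseDisjoint.countable_of_isOpen (s := fun p => Metric.ball (x p) (1 / 2))
    ?_ (fun _ _ => Metric.isOpen_ball) (fun p _ => ⟨x p, by simp⟩)
  intro p hpS q hqS hpq
  have h0 : ⟪x p, x q⟫_ℂ = 0 := by
    have h1 : ⟪p (x p), q (x q)⟫_ℂ = 0 := by
      have h2 : ⟪p (x p), q (x q)⟫_ℂ = ⟪x p, (star p * q) (x q)⟫_ℂ := by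
        show ⟪p (x p), q (x q)⟫_ℂ = ⟪x p, (star p) (q (x q))⟫_ℂ
        rw [ContinuousLinearMap.star_eq_adjoint, ContinuousLinearMap.adjoint_inner_right]
      rw [h2, (hp p hpS).1.1, ho p hpS q hqS hpq]
      simp
    rwa [hx2 p hpS, hx2 q hqS] at h1
  have h3 : ‖x p - x q‖ ^ 2 = 2 := by
    have := @norm_sub_sq ℂ H _ _ _ (x p) (x q)
    rw [this, h0, hx1 p hpS, hx1 q hqS]
    simp
    norm_num
  apply Metric.ball_disjoint_ball
  rw [dist_eq_norm]
  nlinarith [norm_nonneg (x p - x q)]

theorem gen_zero (M : VonNeumannAlgebra H) : Gen M 0 :=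
  ⟨0, 0, zero_mem M, zero_mem M, star_zero _, star_zero _, by simp, by simp, by
    intro y _ _ _ x _; simp⟩

theorem glue [TopologicalSpace.SeparableSpace H] (hspan : V_span) (M : VonNeumannAlgebra H)
    (h : ∀ q, IsCP M q → q ≠ 0 → ∃ z, IsCP M z ∧ z ≠ 0 ∧ q * z = z ∧ Gen M z) :
    ∃ T : H →L[ℂ] H, (M : Set (H →L[ℂ] H)) =
      Set.centralizer (Set.centralizer ({T, star T} : Set (H →L[ℂ] H))) := by
  classical
  -- a maximal orthogonal family
  let P : Set (Set (H →L[ℂ] H)) := {S | (∀ p ∈ S, IsCP M p ∧ p ≠ 0 ∧ Gen M p) ∧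
    ∀ p ∈ S, ∀ q ∈ S, p ≠ q → p * q = 0}
  obtain ⟨S, hS⟩ : ∃ S, Maximal (fun S => S ∈ P) S := by
    apply zorn_subset
    intro c hc hchain
    refine ⟨⋃₀ c, ⟨?_, ?_⟩, fun s hs => Set.subset_sUnion_of_mem hs⟩
    · rintro p ⟨s, hs, hp⟩
      exact (hc hs).1 p hp
    · rintro p ⟨s, hs, hp⟩ q ⟨t, ht, hq⟩ hpq
      rcases hchain.total hs ht with hst | hst
      · exact (hc ht).2 p (hst hp) q hq hpq
      · exact (hc hs).2 p hp q (hst hq) hpq
  have hSP : S ∈ P := hS.prop
  obtain ⟨f, hfM, hfp, hf1, hf2⟩ := hspan H M S (fun v hv => (hSP.1 v hv).1.2.1)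
  have hf1' : ∀ v ∈ S, v * f = v := by
    intro v hv
    have := congrArg star (hf1 v hv)
    rw [star_mul, hfp.1, (hSP.1 v hv).1.1.1] at this
    exact this
  have hfc : ∀ a ∈ M, f * a = a * f := by
    have one : ∀ a ∈ M, a * f = f * a * f := by
      intro a ha
      have h1 : ((1 - f) * a) * f = 0 := by
        apply hf2
        intro v hv
        have hv1 := (hSP.1 v hv).1
        calc (1 - f) * a * v = (1 - f) * (v * a) := by rw [mul_assoc, hv1.2.2 a ha]
          _ = (v - f * v) * a := by rw [← mul_assoc, sub_mul, one_mul]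
          _ = 0 := by rw [hf1 v hv]; simp
      rw [sub_mul, sub_mul, one_mul, sub_eq_zero] at h1
      exact h1
    intro a ha
    have h1 := one a ha
    have h2 := one (star a) (star_mem ha)
    have h3 : f * a = f * a * f := by
      have := congrArg star h2
      rw [star_mul, star_mul, star_mul, star_star, hfp.1] at this
      rw [mul_assoc]; exact this
    rw [h1, ← h3]
  have hf : f = 1 := by
    by_contra hne
    have hq : IsCP M (1 - f) := by
      refine ⟨⟨by rw [star_sub, star_one, hfp.1], ?_⟩, sub_mem (one_mem M) hfM, ?_⟩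
      · rw [mul_sub, sub_mul, sub_mul]; simp [hfp.2]
      · intro a ha
        rw [sub_mul, mul_sub, hfc a ha]; simp
    obtain ⟨z, hz, hz0, hqz, hzg⟩ := h (1 - f) hq (fun h0 => hne (by
      rw [sub_eq_zero] at h0; exact h0.symm))
    have hzv : ∀ v ∈ S, v * z = 0 := by
      intro v hv
      calc v * z = v * ((1 - f) * z) := by rw [hqz]
        _ = (v - v * f) * z := by rw [← mul_assoc, mul_sub, mul_one]
        _ = 0 := by rw [hf1' v hv]; simp
    have hvz : ∀ v ∈ S, z * v = 0 := by
      intro v hv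
      rw [hz.2.2 v (hSP.1 v hv).1.2.1, hzv v hv]
    have hins : insert z S ∈ P := by
      refine ⟨?_, ?_⟩
      · intro p hp
        rcases Set.mem_insert_iff.mp hp with rfl | hp
        · exact ⟨hz, hz0, hzg⟩
        · exact hSP.1 p hp
      · intro p hp q hq hpq
        rcases Set.mem_insert_iff.mp hp with hp' | hp'
        · rcases Set.mem_insert_iff.mp hq with hq' | hq'
          · exact absurd (hp'.trans hq'.symm) hpq
          · rw [hp']; exact hvz q hq'
        · rcases Set.mem_insert_iff.mp hq with hq' | hq'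
          · rw [hq']; exact hzv p hp'
          · exact hSP.2 p hp' q hq' hpq
    have hzS : z ∈ S := hS.le_of_ge hins (Set.subset_insert z S) (Set.mem_insert z S)
    have := hvz z hzS
    rw [hz.1.2] at this
    exact hz0 this
  have hone : ∀ y : H →L[ℂ] H, (∀ v ∈ S, y * v = 0) → y = 0 := by
    intro y hy
    have := hf2 y hy
    rw [hf, mul_one] at this
    exact this
  -- enumerate
  have hcount : S.Countable :=
    countable_of_orth S (fun p hp => ⟨(hSP.1 p hp).1.1, (hSP.1 p hp).2.1⟩) hSP.2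
  haveI := hcount.to_subtype
  obtain ⟨g, hg⟩ := exists_injective_nat S
  let E : ℕ → (H →L[ℂ] H) := fun n => if hn : ∃ p : S, g p = n then (hn.choose : H →L[ℂ] H) else 0
  have hE1 : ∀ p : S, E (g p) = (p : H →L[ℂ] H) := by
    intro p
    have hn : ∃ p' : S, g p' = g p := ⟨p, rfl⟩
    show (if hn : ∃ p' : S, g p' = g p then (hn.choose : H →L[ℂ] H) else 0) = p
    rw [dif_pos hn]
    exact congrArg _ (hg hn.choose_spec)
  have hE2 : ∀ n, (∃ p : S, g p = n ∧ E n = (p : H →L[ℂ] H)) ∨ E n = 0 := by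
    intro n
    by_cases hn : ∃ p : S, g p = n
    · obtain ⟨p, hp⟩ := hn
      left
      exact ⟨p, hp, by rw [← hp]; exact hE1 p⟩
    · right
      exact dif_neg hn
  have hEg : ∀ n, IsCP M (E n) ∧ Gen M (E n) := by
    intro n
    rcases hE2 n with ⟨p, _, hp⟩ | h0
    · rw [hp]; exact ⟨(hSP.1 p p.2).1, (hSP.1 p p.2).2.2⟩
    · rw [h0]
      exact ⟨⟨⟨star_zero _, by simp⟩, zero_mem M, by intro a _; simp⟩, gen_zero M⟩
  have hPart : Part (1 : H →L[ℂ] H) E := by
    refine ⟨fun n => (hEg n).1.1, ?_, fun n => by simp, fun n => by simp, ?_, star_one _⟩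
    · intro m n hmn
      rcases hE2 m with ⟨p, hp1, hp⟩ | h0
      · rcases hE2 n with ⟨q, hq1, hq⟩ | h0
        · rw [hp, hq]
          apply hSP.2 p p.2 q q.2
          intro hpq
          apply hmn
          rw [← hp1, ← hq1, Subtype.ext hpq]
        · rw [h0]; simp
      · rw [h0]; simp
    · intro w hw
      rw [mul_one]
      apply hone
      intro v hv
      have := hw (g ⟨v, hv⟩)
      rw [hE1] at this
      exact this
  choose A B hAM hBM hAs hBs hzA hzB hgen using fun n => (hEg n).2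
  let K : ℕ → (H →L[ℂ] H) := fun n => ((‖A n‖ + 1)⁻¹ : ℝ) • A n
  let L : ℕ → (H →L[ℂ] H) := fun n => ((‖B n‖ + 1)⁻¹ : ℝ) • B n
  have hsc : ∀ x : H →L[ℂ] H, ‖((‖x‖ + 1)⁻¹ : ℝ) • x‖ ≤ 1 := by
    intro x
    have hpos : (0 : ℝ) < ‖x‖ + 1 := by positivity
    rw [norm_smul, Real.norm_of_nonneg (by positivity), inv_mul_le_iff₀ hpos]
    linarith
  have hK1 : ∀ n, ‖K n‖ ≤ 1 := fun n => hsc (A n)
  have hL1 : ∀ n, ‖L n‖ ≤ 1 := fun n => hsc (B n)
  have hKE : ∀ n, E n * K n = K n := fun n => by
    show E n * (((‖A n‖ + 1)⁻¹ : ℝ) • A n) = _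
    rw [mul_smul_comm, hzA]
  have hLE : ∀ n, E n * L n = L n := fun n => by
    show E n * (((‖B n‖ + 1)⁻¹ : ℝ) • B n) = _
    rw [mul_smul_comm, hzB]
  have hKs : ∀ n, star (K n) = K n := fun n => by
    show star (((‖A n‖ + 1)⁻¹ : ℝ) • A n) = _
    rw [star_smul, hAs]; simp [K]
  have hLs : ∀ n, star (L n) = L n := fun n => by
    show star (((‖B n‖ + 1)⁻¹ : ℝ) • B n) = _
    rw [star_smul, hBs]; simp [L]
  set X := dg E K with hX
  set Y := dg E L with hY
  have hXs : star X = X := dg_star hPart.pr hK1 hKs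
  have hYs : star Y = Y := dg_star hPart.pr hL1 hLs
  have hXM : X ∈ M := by
    apply mem_of_comm
    intro y hy
    exact dg_comm hPart.pr hK1 y (fun n => hy _ (hEg n).1.2.1) (fun n => hy _ (vn_rsmul M _ (hAM n)))
  have hYM : Y ∈ M := by
    apply mem_of_comm
    intro y hy
    exact dg_comm hPart.pr hL1 y (fun n => hy _ (hEg n).1.2.1) (fun n => hy _ (vn_rsmul M _ (hBM n)))
  have hcomm : ∀ y : H →L[ℂ] H, y * X = X * y → y * Y = Y * y → ∀ x ∈ M, y * x = x * y := by
    intro y hyX hyY x hx
    have h1 := diag hPart hK1 hKE hKs y hyX (by simp)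
    have h2 := diag hPart hL1 hLE hLs y hyY (by simp)
    have h3 : ∀ n, y * (E n * x) = E n * x * y := by
      intro n
      apply hgen n y _ _ (h1 n).1 x hx
      · have := (h1 n).2
        have e : K n = ((‖A n‖ + 1)⁻¹ : ℝ) • A n := rfl
        rw [e, mul_smul_comm, smul_mul_assoc] at this
        exact smul_right_injective (H →L[ℂ] H)
          (show ((‖A n‖ + 1)⁻¹ : ℝ) ≠ 0 by positivity) this
      · have := (h2 n).2
        have e : L n = ((‖B n‖ + 1)⁻¹ : ℝ) • B n := rfl
        rw [e, mul_smul_comm, smul_mul_assoc] at this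
        exact smul_right_injective (H →L[ℂ] H)
          (show ((‖B n‖ + 1)⁻¹ : ℝ) ≠ 0 by positivity) this
    have h4 : ∀ n, star (y * x - x * y) * E n = 0 := by
      intro n
      have h5 : E n * (y * x - x * y) = 0 := by
        rw [mul_sub, ← mul_assoc, ← (h1 n).1, mul_assoc, h3 n, mul_assoc, sub_self]
      have := congrArg star h5
      rw [star_mul, (hPart.pr n).1, star_zero] at this
      exact this
    have h6 := hPart.comp _ h4
    rw [mul_one] at h6
    have h7 : y * x - x * y = 0 := by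
      have := congrArg star h6
      rwa [star_star, star_zero] at this
    exact sub_eq_zero.mp h7
  refine ⟨X + Complex.I • Y, ?_⟩
  have hTs : star (X + Complex.I • Y) = X - Complex.I • Y := by
    rw [star_add, star_smul, hXs, hYs]
    simp [sub_eq_add_neg]
  apply Set.Subset.antisymm
  · intro x hx
    rw [Set.mem_centralizer_iff]
    intro y hy
    have hy1 : (X + Complex.I • Y) * y = y * (X + Complex.I • Y) := hy _ (by simp)
    have hy2 : (X - Complex.I • Y) * y = y * (X - Complex.I • Y) := by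
      have := hy (star (X + Complex.I • Y)) (by simp)
      rwa [hTs] at this
    rw [add_mul, mul_add, smul_mul_assoc, mul_smul_comm] at hy1
    rw [sub_mul, mul_sub, smul_mul_assoc, mul_smul_comm] at hy2
    have e1 : (2 : ℂ) • (y * X) = (2 : ℂ) • (X * y) := by
      rw [two_smul, two_smul]
      calc y * X + y * X = (y * X + Complex.I • (y * Y)) + (y * X - Complex.I • (y * Y)) := by abel
        _ = (X * y + Complex.I • (Y * y)) + (X * y - Complex.I • (Y * y)) := by rw [hy1, hy2]
        _ = X * y + X * y := by abel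
    have e2 : y * X = X * y := smul_right_injective (H →L[ℂ] H) (two_ne_zero) e1
    have e3 : y * Y = Y * y := by
      rw [e2] at hy1
      have := add_left_cancel hy1
      exact (smul_right_injective (H →L[ℂ] H) Complex.I_ne_zero this).symm
    exact hcomm y e2 e3 x hx
  · intro x hx
    apply mem_of_comm
    intro y hy
    apply hx y
    rw [Set.mem_centralizer_iff]
    intro m hm
    have hTM : X + Complex.I • Y ∈ M := add_mem hXM (vn_smul M _ hYM)
    rcases hm with rfl | hm
    · exact (hy _ hTM).symm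
    · rw [Set.mem_singleton_iff] at hm
      rw [hm]
      exact (hy _ (star_mem hTM)).symm

end H360R2.GN
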