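import Mathlib
import Pool.Agent.H360R2.GN.Glue

/-!
Trichotomy: homogeneous of finite type I, infinite, or finite without abelian projections.
-/

set_option autoImplicit false

open scoped ComplexOrder InnerProductSpace ComplexConjugate Topology
open Finset Filter

noncomputable section

namespace H360R2.GN

open H759R2.Kad H710R2.DP

variable {H : Type} [NormedAddCommGroup H] [InnerProductSpace ℂ H] [CompleteSpace H]

/-- Finite projection. -/
def FinP (M : VonNeumannAlgebra H) (z : H →L[ℂ] H) : Prop :=
  ∀ v ∈ M, star v * v = z → z * v = v → v * star v = z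

theorem mul_init {v f : H →L[ℂ] H} (hf : IsPr f) (h : star v * v = f) : v * f = v := by
  have h1 : star (v - v * f) * (v - v * f) = 0 := by
    rw [star_sub, star_mul, hf.1, sub_mul, mul_sub, mul_sub]
    have e1 : star v * (v * f) = f := by rw [← mul_assoc, h, hf.2]
    have e2 : f * star v * v = f := by rw [mul_assoc, h, hf.2]
    have e3 : f * star v * (v * f) = f := by rw [mul_assoc, e1, hf.2]
    rw [h, e1, e2, e3]; simp
  have h2 := CStarRing.norm_star_mul_self (x := v - v * f)
  rw [h1, norm_zero] at h2
  have h3 : ‖v - v * f‖ = 0 := by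
    have := h2.symm
    rcases mul_eq_zero.mp this with h | h <;> exact h
  have h4 := norm_eq_zero.mp h3
  exact (sub_eq_zero.mp h4).symm

theorem isPI_of_init {v f : H →L[ℂ] H} (hf : IsPr f) (h : star v * v = f) : IsPI v := by
  unfold IsPI
  rw [mul_assoc, h, mul_init hf h]

theorem ran_pr {v : H →L[ℂ] H} (h : IsPI v) : IsPr (v * star v) := by
  refine ⟨by rw [star_mul, star_star], ?_⟩
  calc v * star v * (v * star v) = (v * star v * v) * star v := by simp only [mul_assoc]
    _ = v * star v := by rw [h]

/-- orthogonal partial isometries with the same nonzero initial projection are countable -/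
theorem countable_pi [TopologicalSpace.SeparableSpace H] (W : Set (H →L[ℂ] H))
    (f : H →L[ℂ] H) (hf : IsPr f) (hf0 : f ≠ 0) (h1 : ∀ w ∈ W, star w * w = f)
    (h2 : ∀ w ∈ W, ∀ w' ∈ W, w ≠ w' → star w * w' = 0) : W.Countable := by
  have hinj : Set.InjOn (fun w : H →L[ℂ] H => w * star w) W := by
    intro w hw w' hw' he
    by_contra hne
    have e1 : w * star w = w' * star w' := he
    have e2 : w = w' * (star w' * w) := by
      calc w = w * f := (mul_init hf (h1 w hw)).symm
        _ = (w * star w) * w := by rw [mul_assoc, h1 w hw]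
        _ = (w' * star w') * w := by rw [e1]
        _ = _ := mul_assoc _ _ _
    rw [h2 w' hw' w hw (Ne.symm hne), mul_zero] at e2
    have e3 := h1 w hw
    rw [e2] at e3
    simp at e3
    exact hf0 e3.symm
  have himg : ((fun w : H →L[ℂ] H => w * star w) '' W).Countable := by
    apply countable_of_orth
    · rintro _ ⟨w, hw, rfl⟩
      refine ⟨ran_pr (isPI_of_init hf (h1 w hw)), ?_⟩
      intro h0
      have h0' : w * star w = 0 := h0
      have e3 : f = 0 := by
        calc f = f * f := hf.2.symm
          _ = (star w * w) * (star w * w) := by rw [h1 w hw]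
          _ = star w * (w * star w) * w := by simp only [mul_assoc]
          _ = 0 := by rw [h0']; simp
      exact hf0 e3
    · rintro _ ⟨w, hw, rfl⟩ _ ⟨w', hw', rfl⟩ hne
      have hww : w ≠ w' := fun h => hne (by rw [h])
      calc (w * star w) * (w' * star w') = w * (star w * w') * star w' := by simp only [mul_assoc]
        _ = 0 := by rw [h2 w hw w' hw' hww]; simp
  exact Set.MapsTo.countable_of_injOn (Set.mapsTo_image _ _) hinj himg

/-- not finite: an infinite piece below -/
theorem infinite_piece [TopologicalSpace.SeparableSpace H] (hspan : V_span) (hcomp : V_comp)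
    (M : VonNeumannAlgebra H) (q : H →L[ℂ] H) (hq : IsCP M q) (hnf : ¬ FinP M q) :
    ∃ z, IsCP M z ∧ z ≠ 0 ∧ q * z = z ∧ PieceC M z := by
  unfold FinP at hnf
  push Not at hnf
  obtain ⟨v, hvM, hvv, hqv, hne⟩ := hnf
  have hqs := hq.1.1
  have hqq := hq.1.2
  have hvq : v * q = v := mul_init hq.1 hvv
  have hPI : IsPI v := isPI_of_init hq.1 hvv
  set f := q - v * star v with hf
  have hqvv : q * (v * star v) = v * star v := by rw [← mul_assoc, hqv]
  have hvvq : (v * star v) * q = v * star v := by
    have := congrArg star hqvv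
    rw [star_mul, star_mul, star_star, hqs] at this
    exact this
  have hfM : f ∈ M := sub_mem hq.2.1 (mul_mem hvM (star_mem hvM))
  have hfp : IsPr f := by
    refine ⟨by rw [hf, star_sub, hqs, star_mul, star_star], ?_⟩
    rw [hf, mul_sub, sub_mul, sub_mul, hqq, hqvv, hvvq, (ran_pr hPI).2]; simp
  have hf0 : f ≠ 0 := by
    intro h
    apply hne
    rw [hf, sub_eq_zero] at h
    exact h.symm
  have hqf : q * f = f := by rw [hf, mul_sub, hqq, hqvv]
  have hfq : f * q = f := by
    have := congrArg star hqf
    rw [star_mul, hfp.1, hqs] at this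
    exact this
  have hfv : f * v = 0 := by
    rw [hf, sub_mul, hqv, hPI, sub_self]
  have hsvf : star v * f = 0 := by
    have := congrArg star hfv
    rw [star_mul, hfp.1, star_zero] at this
    exact this
  -- the sequence v ^ n * f
  have hstep : ∀ n : ℕ, star (v ^ n * f) * (v ^ n * f) = f := by
    intro n
    induction n with
    | zero => simp [hfp.1, hfp.2]
    | succ n ih =>
      have e1 : v ^ (n + 1) * f = v * (v ^ n * f) := by rw [pow_succ', mul_assoc]
      have e2 : q * (v ^ n * f) = v ^ n * f := by
        rcases n with _ | n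
        · simp [hqf]
        · rw [pow_succ']
          simp only [← mul_assoc, hqv]
      rw [e1, star_mul, mul_assoc, ← mul_assoc (star v) v, hvv, e2, ih]
  have horth : ∀ m n : ℕ, m ≠ n → star (v ^ m * f) * (v ^ n * f) = 0 := by
    have hlt : ∀ m k : ℕ, star (v ^ m * f) * (v ^ (m + (k + 1)) * f) = 0 := by
      intro m k
      induction m with
      | zero =>
        simp only [pow_zero, one_mul, zero_add, hfp.1]
        rw [pow_succ', mul_assoc v, ← mul_assoc f, hfv, zero_mul]
      | succ m ih =>
        have e1 : v ^ (m + 1) * f = v * (v ^ m * f) := by rw [pow_succ', mul_assoc]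
        have e1' : v ^ (m + 1 + (k + 1)) * f = v * (v ^ (m + (k + 1)) * f) := by
          rw [show m + 1 + (k + 1) = (m + (k + 1)) + 1 by ring, pow_succ', mul_assoc]
        have e2 : q * (v ^ (m + (k + 1)) * f) = v ^ (m + (k + 1)) * f := by
          rw [show m + (k + 1) = (m + k) + 1 by ring, pow_succ']
          simp only [← mul_assoc, hqv]
        rw [e1, e1', star_mul, mul_assoc, ← mul_assoc (star v) v, hvv, e2, ih]
    intro m n hmn
    rcases lt_or_gt_of_ne hmn with h | h
    · obtain ⟨k, rfl⟩ : ∃ k, n = m + (k + 1) := ⟨n - m - 1, by omega⟩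
      exact hlt m k
    · obtain ⟨k, rfl⟩ : ∃ k, m = n + (k + 1) := ⟨m - n - 1, by omega⟩
      have := congrArg star (hlt n k)
      rwa [star_mul, star_star, star_zero] at this
  -- maximal family
  let P : Set (Set (H →L[ℂ] H)) := {S | (∀ w ∈ S, w ∈ M ∧ star w * w = f ∧ q * w = w) ∧
    ∀ w ∈ S, ∀ w' ∈ S, w ≠ w' → star w * w' = 0}
  have hS0 : Set.range (fun n : ℕ => v ^ n * f) ∈ P := by
    refine ⟨?_, ?_⟩
    · rintro _ ⟨n, rfl⟩
      refine ⟨mul_mem (pow_mem hvM n) hfM, hstep n, ?_⟩
      rcases n with _ | n
      · simp [hqf]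
      · show q * (v ^ (n + 1) * f) = v ^ (n + 1) * f
        rw [pow_succ']
        simp only [← mul_assoc, hqv]
    · rintro _ ⟨m, rfl⟩ _ ⟨n, rfl⟩ hne
      exact horth m n (fun h => hne (by rw [h]))
  obtain ⟨S, hS0S, hS⟩ : ∃ S, Set.range (fun n : ℕ => v ^ n * f) ⊆ S ∧
      Maximal (fun S => S ∈ P) S := by
    apply zorn_subset_nonempty P _ _ hS0
    intro c hc hchain hne
    refine ⟨⋃₀ c, ⟨?_, ?_⟩, fun s hs => Set.subset_sUnion_of_mem hs⟩
    · rintro p ⟨s, hs, hp⟩
      exact (hc hs).1 p hp
    · rintro p ⟨s, hs, hp⟩ q ⟨t, ht, hq⟩ hpq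
      rcases hchain.total hs ht with hst | hst
      · exact (hc ht).2 p (hst hp) q hq hpq
      · exact (hc hs).2 p hp q (hst hq) hpq
  have hSP : S ∈ P := hS.prop
  have hScount : S.Countable := countable_pi S f hfp hf0 (fun w hw => (hSP.1 w hw).2.1) hSP.2
  have hSinf : S.Infinite := by
    apply Set.Infinite.mono hS0S
    apply Set.infinite_range_of_injective
    intro m n hmn
    by_contra hne
    have h1 := horth m n hne
    have hmn' : v ^ m * f = v ^ n * f := hmn
    rw [← hmn', hstep m] at h1
    exact hf0 h1
  obtain ⟨g, hgM, hgp, hg1, hg2⟩ := hspan H M S (fun w hw => (hSP.1 w hw).1)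
  have hqg : q * g = g := by
    have h1 : (1 - q) * g = 0 := by
      apply hg2
      intro w hw
      rw [sub_mul, one_mul, (hSP.1 w hw).2.2, sub_self]
    rw [sub_mul, one_mul, sub_eq_zero] at h1
    exact h1.symm
  have hgq : g * q = g := by
    have := congrArg star hqg
    rw [star_mul, hgp.1, hqs] at this
    exact this
  set r := q - g with hr
  have hrM : r ∈ M := sub_mem hq.2.1 hgM
  have hrp : IsPr r := by
    refine ⟨by rw [hr, star_sub, hqs, hgp.1], ?_⟩
    rw [hr, mul_sub, sub_mul, sub_mul, hqq, hqg, hgq, hgp.2]; simp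
  have hrw : ∀ w ∈ S, r * w = 0 := by
    intro w hw
    rw [hr, sub_mul, (hSP.1 w hw).2.2, hg1 w hw, sub_self]
  have hqr : q * r = r := by rw [hr, mul_sub, hqq, hqg]
  obtain ⟨u, huM, huPI, hur, hfu, c, hc, hc1, hc2⟩ := hcomp H M r hrM f hfM hrp hfp
  have hrus : r * star u = star u := by
    have := congrArg star hur
    rw [star_mul, hrp.1] at this
    exact this
  have husf : star u * f = star u := by
    have := congrArg star hfu
    rw [star_mul, hfp.1] at this
    exact this
  have hcf : (1 - c) * f ≠ 0 := by
    intro h0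
    have e1 : f = c * f := by
      rw [sub_mul, one_mul, sub_eq_zero] at h0
      exact h0
    have e2 : u * star u = f := by
      have h3 : c * (u * star u) = c * f := by
        rw [mul_sub, sub_eq_zero] at hc1
        exact hc1.symm
      have h4 : c * u = u := by
        calc c * u = c * (f * u) := by rw [hfu]
          _ = (c * f) * u := (mul_assoc _ _ _).symm
          _ = u := by rw [← e1, hfu]
      rw [← mul_assoc, h4, ← e1] at h3
      exact h3
    have hins : insert (star u) S ∈ P := by
      refine ⟨?_, ?_⟩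
      · intro w hw
        rcases Set.mem_insert_iff.mp hw with hw' | hw'
        · rw [hw']
          refine ⟨star_mem huM, by rw [star_star, e2], ?_⟩
          rw [← hrus, ← mul_assoc, hqr]
        · exact hSP.1 w hw'
      · have hwu : ∀ w ∈ S, star w * star u = 0 := by
          intro w hw
          have h5 := congrArg star (hrw w hw)
          rw [star_mul, hrp.1, star_zero] at h5
          rw [← hrus, ← mul_assoc, h5, zero_mul]
        intro w hw w' hw' hww
        rcases Set.mem_insert_iff.mp hw with h1 | h1
        · rcases Set.mem_insert_iff.mp hw' with h2 | h2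
          · exact absurd (h1.trans h2.symm) hww
          · have := congrArg star (hwu w' h2)
            rw [star_mul, star_star, star_star, star_zero] at this
            rw [h1, star_star]; exact this
        · rcases Set.mem_insert_iff.mp hw' with h2 | h2
          · rw [h2]; exact hwu w h1
          · exact hSP.2 w h1 w' h2 hww
    have huS : star u ∈ S := hS.le_of_ge hins (Set.subset_insert _ S) (Set.mem_insert _ S)
    have h6 := hrw _ huS
    rw [hrus] at h6
    rw [h6, mul_zero] at e2
    exact hf0 e2.symm
  have hcc := hc.1.2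
  have hcs := hc.1.1
  have hcq : c * q = q * c := hc.2.2 q hq.2.1
  set z := (1 - c) * q with hzdef
  have hz : IsCP M z := by
    refine ⟨⟨?_, ?_⟩, mul_mem (sub_mem (one_mem M) hc.2.1) hq.2.1, ?_⟩
    · rw [hzdef, star_mul, star_sub, star_one, hqs, hcs, mul_sub, sub_mul, one_mul, mul_one, hcq]
    · have h1 : (1 - c) * (1 - c) = 1 - c := by
        rw [mul_sub, sub_mul, sub_mul]; simp [hcc]
      have h2 : q * (1 - c) = (1 - c) * q := by
        rw [mul_sub, sub_mul, one_mul, mul_one, hcq]
      calc (1 - c) * q * ((1 - c) * q) = (1 - c) * (q * (1 - c)) * q := by simp only [mul_assoc]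
        _ = ((1 - c) * (1 - c)) * (q * q) := by rw [h2]; simp only [mul_assoc]
        _ = (1 - c) * q := by rw [h1, hqq]
    · intro a ha
      calc (1 - c) * q * a = (1 - c) * (a * q) := by rw [mul_assoc, hq.2.2 a ha]
        _ = ((1 - c) * a) * q := (mul_assoc _ _ _).symm
        _ = (a * (1 - c)) * q := by rw [sub_mul, mul_sub, one_mul, mul_one, hc.2.2 a ha]
        _ = a * ((1 - c) * q) := mul_assoc _ _ _
  have hzq : z * q = z := by rw [hzdef, mul_assoc, hqq]
  have hqz : q * z = z := by rw [← hz.2.2 q hq.2.1, hzq]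
  have hzz := hz.1.2
  have hzf : z * f = (1 - c) * f := by rw [hzdef, mul_assoc, hqf]
  have hz0 : z ≠ 0 := by
    intro h0
    apply hcf
    rw [← hzf, h0, zero_mul]
  refine ⟨z, hz, hz0, hqz, ?_⟩
  -- enumerate S
  haveI := hScount.to_subtype
  haveI := hSinf.to_subtype
  obtain ⟨σ⟩ : Nonempty (ℕ ≃ S) := nonempty_equiv_of_countable
  have hσ : ∀ n, (σ n : H →L[ℂ] H) ∈ S := fun n => (σ n).2
  have hzfp : IsPr (z * f) := by
    refine ⟨by rw [star_mul, hfp.1, hz.1.1, ← hz.2.2 f hfM], ?_⟩
    calc z * f * (z * f) = z * (f * z) * f := by simp only [mul_assoc]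
      _ = (z * z) * (f * f) := by rw [← hz.2.2 f hfM]; simp only [mul_assoc]
      _ = z * f := by rw [hzz, hfp.2]
  have hinit : ∀ n, star (z * (σ n : H →L[ℂ] H)) * (z * (σ n : H →L[ℂ] H)) = z * f := by
    intro n
    have h1 := (hSP.1 _ (hσ n))
    rw [star_mul, hz.1.1]
    calc star (σ n : H →L[ℂ] H) * z * (z * (σ n : H →L[ℂ] H))
        = star (σ n : H →L[ℂ] H) * (z * z) * (σ n : H →L[ℂ] H) := by simp only [mul_assoc]
      _ = (star (σ n : H →L[ℂ] H) * z) * (σ n : H →L[ℂ] H) := by rw [hzz]
      _ = (z * star (σ n : H →L[ℂ] H)) * (σ n : H →L[ℂ] H) := by rw [hz.2.2 _ (star_mem h1.1)]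
      _ = z * f := by rw [mul_assoc, h1.2.1]
  let V : ℕ → (H →L[ℂ] H) := fun n =>
    match n with
    | 0 => z * star u
    | (k + 1) => z * (σ k : H →L[ℂ] H)
  have hV0 : V 0 = z * star u := rfl
  have hVs : ∀ k, V (k + 1) = z * (σ k : H →L[ℂ] H) := fun k => rfl
  have hzus : z * star u = star u * z := hz.2.2 _ (star_mem huM)
  refine ⟨V, ?_, ?_, ?_, ?_, ?_, ?_, ?_⟩
  · intro n
    rcases n with _ | k
    · exact mul_mem hz.2.1 (star_mem huM)
    · exact mul_mem hz.2.1 (hSP.1 _ (hσ k)).1
  · intro n
    rcases n with _ | k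
    · unfold IsPI
      have husPI : star u * u * star u = star u := by
        have := congrArg star huPI
        rw [star_mul, star_mul, star_star] at this
        rw [mul_assoc]; exact this
      rw [hV0, star_mul, star_star, hz.1.1]
      calc z * star u * (u * z) * (z * star u) = z * star u * u * (z * z) * star u := by
            simp only [mul_assoc]
        _ = z * (star u * u) * (z * star u) := by rw [hzz]; simp only [mul_assoc]
        _ = z * (star u * u) * (star u * z) := by rw [hzus]
        _ = z * (star u * u * star u) * z := by simp only [mul_assoc]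
        _ = z * star u * z := by rw [husPI]
        _ = z * (star u * z) := mul_assoc _ _ _
        _ = z * (z * star u) := by rw [hzus]
        _ = z * star u := by rw [← mul_assoc, hzz]
    · exact isPI_of_init hzfp (hinit k)
  · intro n
    rw [hVs n, show V 1 = z * (σ 0 : H →L[ℂ] H) from rfl, hinit n, hinit 0]
  · rw [show V 1 = z * (σ 0 : H →L[ℂ] H) from rfl, hinit 0, hV0]
    calc z * star u * (z * f) = (z * (star u * z)) * f := by simp only [mul_assoc]
      _ = (z * (z * star u)) * f := by rw [hzus]
      _ = (z * z) * (star u * f) := by simp only [mul_assoc]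
      _ = z * star u := by rw [hzz, husf]
  · have h0 : ∀ k, star (V 0) * V (k + 1) = 0 := by
      intro k
      rw [hV0, hVs k, star_mul, star_star, hz.1.1]
      calc u * z * (z * (σ k : H →L[ℂ] H)) = u * (z * z) * (σ k : H →L[ℂ] H) := by
            simp only [mul_assoc]
        _ = (u * z) * (σ k : H →L[ℂ] H) := by rw [hzz]
        _ = z * (u * (σ k : H →L[ℂ] H)) := by rw [← hz.2.2 u huM, mul_assoc]
        _ = z * ((u * r) * (σ k : H →L[ℂ] H)) := by rw [hur]
        _ = 0 := by rw [mul_assoc u, hrw _ (hσ k)]; simp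
    intro m n hmn
    rcases m with _ | m
    · rcases n with _ | n
      · exact absurd rfl hmn
      · exact h0 n
    · rcases n with _ | n
      · have := congrArg star (h0 m)
        rwa [star_mul, star_star, star_zero] at this
      · rw [hVs m, hVs n, star_mul, hz.1.1]
        have hne' : (σ m : H →L[ℂ] H) ≠ (σ n : H →L[ℂ] H) := by
          intro h
          apply hmn
          have := σ.injective (Subtype.ext h)
          rw [this]
        have h1 := (hSP.1 _ (hσ m)).1
        calc star (σ m : H →L[ℂ] H) * z * (z * (σ n : H →L[ℂ] H))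
            = star (σ m : H →L[ℂ] H) * (z * z) * (σ n : H →L[ℂ] H) := by simp only [mul_assoc]
          _ = (star (σ m : H →L[ℂ] H) * z) * (σ n : H →L[ℂ] H) := by rw [hzz]
          _ = (z * star (σ m : H →L[ℂ] H)) * (σ n : H →L[ℂ] H) := by
              rw [hz.2.2 _ (star_mem h1)]
          _ = z * (star (σ m : H →L[ℂ] H) * (σ n : H →L[ℂ] H)) := mul_assoc _ _ _
          _ = 0 := by rw [hSP.2 _ (hσ m) _ (hσ n) hne', mul_zero]
  · intro n
    rcases n with _ | k
    · rw [hV0, ← mul_assoc, hzz]
    · rw [hVs, ← mul_assoc, hzz]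
  · intro y hy
    have h1 : (y * z) * g = 0 := by
      apply hg2
      intro w hw
      have := hy (σ.symm ⟨w, hw⟩ + 1)
      rw [hVs, Equiv.apply_symm_apply] at this
      rw [mul_assoc]; exact this
    have h2 : (y * z) * r = 0 := by
      have h3 := hy 0
      rw [hV0] at h3
      have h4 : z * r = z * (star u * u) := by
        have h5 : (1 - c) * r = (1 - c) * (star u * u) := by
          rw [mul_sub, sub_eq_zero] at hc2
          exact hc2
        have h6 : q * (star u * u) = star u * u := by
          calc q * (star u * u) = q * (r * star u * u) := by rw [hrus]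
            _ = (q * r) * star u * u := by simp only [mul_assoc]
            _ = star u * u := by rw [hqr, hrus]
        rw [hzdef, mul_assoc, hqr, h5, mul_assoc, h6]
      calc (y * z) * r = y * (z * r) := mul_assoc _ _ _
        _ = y * (z * (star u * u)) := by rw [h4]
        _ = (y * (z * star u)) * u := by simp only [mul_assoc]
        _ = 0 := by rw [h3, zero_mul]
    have h7 : (y * z) * q = 0 := by
      have : q = g + r := by rw [hr]; abel
      rw [this, mul_add, h1, h2, add_zero]
    rw [mul_assoc, hzq] at h7
    exact h7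

/-- trichotomy -/
theorem tricho [TopologicalSpace.SeparableSpace H] (hspan : V_span) (hcomp : V_comp)
    (habel : V_abel) (hfin : V_fin) (M : VonNeumannAlgebra H) (q : H →L[ℂ] H) (hq : IsCP M q)
    (hq0 : q ≠ 0) : ∃ z, IsCP M z ∧ z ≠ 0 ∧ q * z = z ∧
      (PieceA M z ∨ PieceC M z ∨ (NoAb M z ∧ FinP M z)) := by
  by_cases hab : NoAb M q
  · by_cases hf : FinP M q
    · exact ⟨q, hq, hq0, hq.1.2, Or.inr (Or.inr ⟨hab, hf⟩)⟩
    · obtain ⟨z, h1, h2, h3, h4⟩ := infinite_piece hspan hcomp M q hq hf
      exact ⟨z, h1, h2, h3, Or.inr (Or.inl h4)⟩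
  · unfold NoAb at hab
    push Not at hab
    obtain ⟨e, heM, hep, hqe, hea, he0⟩ := hab
    obtain ⟨p, hp, hp0, hpz, I, v, hne, hv1, hv2, hv3, hv4⟩ := habel H M e heM hep he0 hea
    have hqp : q * p = p := hpz q hq hqe
    refine ⟨p, hp, hp0, hqp, ?_⟩
    have hpe : IsPr (p * e) := by
      refine ⟨by rw [star_mul, hep.1, hp.1.1, ← hp.2.2 e heM], ?_⟩
      calc p * e * (p * e) = p * (e * p) * e := by simp only [mul_assoc]
        _ = (p * p) * (e * e) := by rw [← hp.2.2 e heM]; simp only [mul_assoc]
        _ = p * e := by rw [hp.1.2, hep.2]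
    rcases finite_or_infinite I with hI | hI
    · left
      apply hfin H M p (p * e) hp (mul_mem hp.2.1 heM) hpe _ I v hv1 hv2 hv3 hv4
      intro x hx ε hε
      obtain ⟨c, hc, hn⟩ := hea x hx ε hε
      refine ⟨c, hc, ?_⟩
      have e1 : p * e * x * (p * e) - c * (p * e) = p * (e * x * e - c * e) := by
        rw [mul_sub]
        congr 1
        · calc p * e * x * (p * e) = p * ((e * x) * p) * e := by simp only [mul_assoc]
            _ = p * (p * (e * x)) * e := by rw [hp.2.2 _ (mul_mem heM hx)]
            _ = (p * p) * (e * x * e) := by simp only [mul_assoc]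
            _ = p * (e * x * e) := by rw [hp.1.2]
        · rw [← mul_assoc, ← mul_assoc, hp.2.2 c hc.1]
      rw [e1]
      calc ‖p * (e * x * e - c * e)‖ ≤ ‖p‖ * ‖e * x * e - c * e‖ := norm_mul_le _ _
        _ ≤ 1 * ε := mul_le_mul (pr_norm hp.1) hn (norm_nonneg _) zero_le_one
        _ = ε := one_mul _
    · right; left
      have hpe0 : p * e ≠ 0 := by
        intro h0
        apply hp0
        have h5 : ∀ i, v i = 0 := by
          intro i
          have := mul_init hpe (hv1 i).2
          rw [h0, mul_zero] at this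
          exact this.symm
        have h6 := hv4 1 (fun i => by rw [h5 i, mul_zero])
        rw [one_mul] at h6
        exact h6
      have hinj : Function.Injective v := by
        intro i j hij
        by_contra hne
        have h5 := hv2 i j hne
        rw [← hij, (hv1 i).2] at h5
        exact hpe0 h5
      have hcount : (Set.range v).Countable := by
        apply countable_pi _ (p * e) hpe hpe0
        · rintro _ ⟨i, rfl⟩
          exact (hv1 i).2
        · rintro _ ⟨i, rfl⟩ _ ⟨j, rfl⟩ hne
          exact hv2 i j (fun h => hne (by rw [h]))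
      haveI : Countable I := by
        haveI := hcount.to_subtype
        exact Function.Injective.countable (f := fun i => (⟨v i, i, rfl⟩ : Set.range v))
          (fun i j h => hinj (congrArg Subtype.val h))
      obtain ⟨σ⟩ : Nonempty (ℕ ≃ I) := nonempty_equiv_of_countable
      refine ⟨fun n => v (σ n), fun n => (hv1 _).1, fun n => isPI_of_init hpe (hv1 _).2, ?_, ?_,
        ?_, fun n => hv3 _, ?_⟩
      · intro n
        show star (v (σ (n + 1))) * v (σ (n + 1)) = star (v (σ 1)) * v (σ 1)
        rw [(hv1 _).2, (hv1 _).2]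
      · show v (σ 0) * (star (v (σ 1)) * v (σ 1)) = v (σ 0)
        rw [(hv1 (σ 1)).2]
        exact mul_init hpe (hv1 _).2
      · intro m n hmn
        exact hv2 _ _ (fun h => hmn (σ.injective h))
      · intro y hy
        apply hv4
        intro i
        have h7 : y * v (σ (σ.symm i)) = 0 := hy (σ.symm i)
        rw [Equiv.apply_symm_apply] at h7
        exact h7

end H360R2.GN
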