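import Mathlib
import Pool.Agent.H360R2.GN.Tri
import Pool.Agent.H360R2.GN.GenA
import Pool.Agent.H360R2.GN.Cut
import Pool.Agent.H735G.Defs
import Pool.Agent.H917R2.Tr.Stubs

/-!
Reduction of the generator problem to finite algebras without abelian projections.
-/

set_option autoImplicit false

open scoped ComplexOrder InnerProductSpace ComplexConjugate Topology
open Finset Filter

noncomputable section

namespace H360R2.GN

open H759R2.Kad H710R2.DP Pool.Agent.H467F Pool.Agent.H735G

/-- the finite part, in terms of generators of the piece -/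
theorem genB (hTR : H917R2.Tr.TR_main) (hII : II1Z) {H : Type} [NormedAddCommGroup H]
    [InnerProductSpace ℂ H] [CompleteSpace H] [TopologicalSpace.SeparableSpace H]
    (M : VonNeumannAlgebra H) (z : H →L[ℂ] H) (hz : IsCP M z) (hz0 : z ≠ 0) (hab : NoAb M z)
    (hfin : FinP M z) : Gen M z := by
  obtain ⟨K, _, _, _, io, hsep, ha, hb⟩ := exists_range z hz.1
  have hE : Emb io z := ⟨ha, hb, hz.1⟩
  haveI : TopologicalSpace.SeparableSpace K := hsep inferInstance
  haveI : Nontrivial K := by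
    by_contra hnt
    rw [not_nontrivial_iff_subsingleton] at hnt
    apply hz0
    rw [← hb]
    ext ξ
    have : ContinuousLinearMap.adjoint io ξ = 0 := Subsingleton.elim _ _
    show io (ContinuousLinearMap.adjoint io ξ) = 0
    rw [this, map_zero]
  obtain ⟨ξ, hξ, h1, h2, h3⟩ := hTR K (cut M hz hE) (fin_cut hz hE hfin)
  obtain ⟨T, hT⟩ := hII K (cut M hz hE) (noab_cut hz hE hab)
    ⟨fun x => H917R2.Tr.vf ξ (x : K →L[ℂ] K), ⟨h1, fun x y => h2 x x.2 y y.2, fun x hx =>
      Subtype.ext (h3 x x.2 hx)⟩, ξ, hξ, fun x => rfl⟩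
  exact gen_of_cut hz hE T hT

theorem reduction (h1 : V_span) (h2 : V_comp) (h3 : V_abel) (h4 : V_fin) (h5 : Z_span)
    (hTR : H917R2.Tr.TR_main) : ReductionThm := by
  intro hII H _ _ _ _ M
  apply glue h1 M
  intro q hq hq0
  obtain ⟨z, hz, hz0, hqz, hA | hC | ⟨hab, hf⟩⟩ := tricho h1 h2 h3 h4 M q hq hq0
  · exact ⟨z, hz, hz0, hqz, genA h5 M z hz hA⟩
  · exact ⟨z, hz, hz0, hqz, genC M z hz hC⟩
  · exact ⟨z, hz, hz0, hqz, genB hTR hII M z hz hz0 hab hf⟩

end H360R2.GN
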