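import Mathlib
import Pool.Agent.H360R2.GN.Red
import Pool.Agent.H778R2.DP.Span
import Pool.Agent.H503R2.DP.V02
import Pool.Agent.H445R2.Kad4.Range
import Pool.Agent.H85R2.Kad4.Polar
import Pool.Agent.H849R2.Kad4.F4
import Pool.Agent.H896R2.DP.V08
import Pool.Agent.H8R2.DP.Vabel
import Pool.Agent.H134R3.DP.V12
import Pool.Agent.H372R2.DP.Z2
import Pool.Agent.H666R2.DP.Z1

/-!
The reduction with all structure theorems filled in; the existence of the trace is the only
hypothesis.
-/

set_option autoImplicit false

noncomputable section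

namespace H360R2.GN

open H759R2.Kad H710R2.DP Pool.Agent.H735G

theorem comp_all : V_comp := dp_Vcomp dp_Vsupp prove5_polar prove5_chain

/-- BLOCK 5, from the existence of the trace -/
theorem reduction_of_trace (hTR : H917R2.Tr.TR_main) : ReductionThm :=
  reduction dp_Vspan comp_all (dp_Vabel dp_Vsupp dp_Vspan (dp_Vabsorb (dp_Vsub dp_Vsupp) comp_all))
    dp_Vfin (dp_span (dp_bin prove5_range)) hTR

end H360R2.GN
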